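import Pool.Agent.H59.L.S8.TH876.KR.Cho

set_option autoImplicit false

/-!
# The choice of the prescribed primes when one side is light (number fields)

Port of `SB/ChoA.lean` (helper867) to number fields, on top of `KR/Cho.lean` (helper876).
-/

namespace Pool.Agent.H59.QI

open NumberField IsDedekindDomain Finset Pool.Agent.H691R3 Pool.Agent.TH876.Loc
open Pool.Agent.TH876.KR (InP side rr Light rr_nonneg cho_max cho_part cho_one ChoG)

variable {K : Type} [Field K] [NumberField K]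

theorem choiceA_aux {k : ℕ} (hk : 2 ≤ k) {x : K} (hx : Pt x) (h0 : 0 < hgt x) {i j l : Fin 3}
    (hij : i ≠ j) (hjl : j ≠ l) (hil : i ≠ l) :
    ∃ S : Finset (Pr K), ChoG k S x ∧
      ∑ v ∈ S, Real.log (Nv v) ≤
        (2 * rr i x + rr j x + rr l x) / 2 + 1 / (k : ℝ) * (rr j x + rr l x) := by
  obtain ⟨Pj, hPj, mj, ej, nj⟩ := cho_max j x
  obtain ⟨Pl, hPl, ml, el, nl⟩ := cho_max l x
  obtain ⟨Qj, hQj, wj, cj⟩ := cho_part hk hx h0 j hPj mj
  obtain ⟨Ql, hQl, wl, cl⟩ := cho_part hk hx h0 l hPl ml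
  obtain ⟨S0, g0, f0⟩ := cho_one hk hx h0 (A := j) (B := l) (C := i) hjl hil.symm
    hij.symm el nl hQj wj cj
  obtain ⟨S1, g1, f1⟩ := cho_one hk hx h0 (A := l) (B := j) (C := i) hjl.symm hij.symm
    hil.symm ej nj hQl wl cl
  have e : (2 : ℝ) / k = 2 * (1 / (k : ℝ)) := by ring
  rw [e] at f0 f1
  by_contra hcon
  push Not at hcon
  have a0 := hcon S0 g0
  have a1 := hcon S1 g1
  linarith

theorem choiceA {k : ℕ} (hk : 2 ≤ k) {x : K} (hx : Pt x) (h0 : 0 < hgt x) (i : Fin 3) :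
    ∃ S : Finset (Pr K), (Light k S x ∨ ∃ (A B C : Fin 3) (p : Pr K), A ≠ B ∧ B ≠ C ∧ A ≠ C ∧
        InP k S A B C x p) ∧
      ∑ v ∈ S, Real.log (Nv v) ≤
        (rr 0 x + rr 1 x + rr 2 x + rr i x) / 2 +
          1 / (k : ℝ) * (rr 0 x + rr 1 x + rr 2 x) := by
  have hk2 : (2 : ℝ) ≤ k := by exact_mod_cast hk
  have hk0 : (0 : ℝ) < k := by linarith
  have r0 := rr_nonneg 0 x
  have r1 := rr_nonneg 1 x
  have r2 := rr_nonneg 2 x
  obtain ⟨κ, hκ⟩ : ∃ κ : ℝ, κ = 1 / (k : ℝ) := ⟨_, rfl⟩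
  have hκ0 : 0 < κ := by rw [hκ]; positivity
  rw [← hκ]
  have q0 := mul_nonneg hκ0.le r0
  have q1 := mul_nonneg hκ0.le r1
  have q2 := mul_nonneg hκ0.le r2
  fin_cases i
  · obtain ⟨S, g, f⟩ := choiceA_aux hk hx h0 (i := 0) (j := 1) (l := 2) (by decide) (by decide)
      (by decide)
    rw [← hκ] at f
    refine ⟨S, g, f.trans ?_⟩
    show _ ≤ (rr 0 x + rr 1 x + rr 2 x + rr 0 x) / 2 + _
    linarith
  · obtain ⟨S, g, f⟩ := choiceA_aux hk hx h0 (i := 1) (j := 0) (l := 2) (by decide) (by decide)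
      (by decide)
    rw [← hκ] at f
    refine ⟨S, g, f.trans ?_⟩
    show _ ≤ (rr 0 x + rr 1 x + rr 2 x + rr 1 x) / 2 + _
    linarith
  · obtain ⟨S, g, f⟩ := choiceA_aux hk hx h0 (i := 2) (j := 0) (l := 1) (by decide) (by decide)
      (by decide)
    rw [← hκ] at f
    refine ⟨S, g, f.trans ?_⟩
    show _ ≤ (rr 0 x + rr 1 x + rr 2 x + rr 2 x) / 2 + _
    linarith

end Pool.Agent.H59.QI
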