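import Pool.Agent.H59.L.S8.Y728.HighK

/-!
The points of the class `InP` of large height, with a parameter (adaptation of
`Y728/HighK.lean` (helper728, after helper867)).
-/

set_option autoImplicit false

namespace Pool.Agent.H59.QI

open Finset NumberField IsDedekindDomain Pool.Agent.H691R3 Pool.Agent.TH876.Loc
open Pool.Agent.TH876.KR (InP aw log_Nv_pos' log_nn side mem_side df_eq_zero Light Sc)
open Pool.Agent.Y728 (GD FamL nn_insert InP_light few_primesK)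

variable {K : Type} [Field K] [NumberField K] {h r : ℕ} {Cc : ℝ} {ε : Fin r → 𝓞 K} {g : Pr K → 𝓞 K}

theorem M_le {k : ℕ} (hk : 9 ≤ k) {X M a : ℝ} (hX : 1 ≤ X) (hM : M ≤ X ^ (2 / 3 : ℝ))
    (ha : a ≤ 3) : M * X ^ (a / (k : ℝ)) ≤ X := by
  have hk9 : (9 : ℝ) ≤ k := by exact_mod_cast hk
  have hk0 : (0 : ℝ) < k := by linarith
  have hX0 : 0 < X := by linarith
  have h1 : a / (k : ℝ) ≤ 1 / 3 := by
    rw [div_le_iff₀ hk0]
    linarith
  calc M * X ^ (a / (k : ℝ)) ≤ X ^ (2 / 3 : ℝ) * X ^ (a / (k : ℝ)) :=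
        mul_le_mul_of_nonneg_right hM (by positivity)
    _ = X ^ (2 / 3 + a / (k : ℝ)) := by rw [← Real.rpow_add hX0]
    _ ≤ X ^ (1 : ℝ) := Real.rpow_le_rpow_of_exponent_le hX (by linarith)
    _ = X := Real.rpow_one X

/-- the number of sets of primes -/
theorem card_setsM (K : Type) [Field K] [NumberField K] {k : ℕ} (hk : 9 ≤ k) :
    ∃ X0 : ℝ, 16 ≤ X0 ∧ ∀ X : ℝ, X0 ≤ X → ∀ M : ℝ, 1 ≤ M → M ≤ X ^ (2 / 3 : ℝ) →
      ∀ U : Finset (Finset (Pr K)),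
      (∀ S ∈ U, nn S ≤ M * X ^ (1 / (k : ℝ))) → (U.card : ℝ) ≤ M * X ^ (2 / (k : ℝ)) := by
  classical
  have hk0 : (0 : ℝ) < k := by
    have : 0 < k := by omega
    exact_mod_cast this
  have h1k : 0 < 1 / (k : ℝ) := by positivity
  obtain ⟨X0, hX0, h⟩ := Pool.Agent.Y96.sum_bigK K 1 (1 / (k : ℝ)) le_rfl h1k
  refine ⟨X0, hX0, fun X hX M hM1' hMX' U hU => ?_⟩
  have hX16 : 16 ≤ X := hX0.trans hX
  have hX1 : 1 ≤ X := by linarith
  have hXpos : 0 < X := by linarith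
  have hM1 : 1 ≤ M * X ^ (1 / (k : ℝ)) :=
    one_le_mul_of_one_le_of_one_le hM1' (Real.one_le_rpow hX1 (by positivity))
  have hMX : M * X ^ (1 / (k : ℝ)) ≤ X := M_le hk hX1 hMX' (by norm_num)
  have h1 := h X hX _ hM1 hMX U hU
  have hlog : 1 ≤ Real.log X := by
    have := Pool.Agent.TH876.Loc.log_facts hX16
    have := Real.exp_one_gt_d9
    linarith
  have h2 : (U.card : ℝ) ≤ ∑ S ∈ U, (1 * Real.log X) ^ S.card := by
    have h3 : ∑ S ∈ U, (1 : ℝ) ≤ ∑ S ∈ U, (1 * Real.log X) ^ S.card :=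
      Finset.sum_le_sum fun S _ => one_le_pow₀ (by linarith)
    rw [Finset.sum_const, nsmul_eq_mul, mul_one] at h3
    exact h3
  refine (h2.trans h1).trans (le_of_eq ?_)
  rw [mul_assoc, ← Real.rpow_add hXpos]
  congr 2
  ring

/-- large heights -/
theorem high_partM (G : GD K h r Cc ε g) {k : ℕ} (hk : 9 ≤ k) (κh : ℕ) (hfam : FamL K k κh) :
    ∃ C : ℝ, 1 ≤ C ∧ ∃ D : ℝ, 0 < D ∧ ∃ X0 : ℝ, 16 ≤ X0 ∧
    ∀ X : ℝ, X0 ≤ X → ∀ M : ℝ, 1 ≤ M → M ≤ X ^ (2 / 3 : ℝ) →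
      ∀ F : Finset K, (∀ x ∈ F, Pt x ∧ hgt x ≤ Real.exp (Real.log X ^ κh) ∧
      ∃ (S : Finset (Pr K)) (A B E : Fin 3) (p : Pr K), nn S ≤ M * X ^ (1 / (k : ℝ)) ∧
        A ≠ B ∧ B ≠ E ∧ A ≠ E ∧ InP k S A B E x p ∧ Nv p ≤ X ∧
        (C * Real.log X) ^ S.card * X ^ (1 / (k : ℝ)) < hgt x) →
    (F.card : ℝ) ≤ D * (M * X ^ (5 / (k : ℝ))) := by
  classical
  have hk1 : 1 ≤ k := by omega
  have hk0 : (0 : ℝ) < k := by exact_mod_cast hk1
  have h1k : 0 < 1 / (k : ℝ) := by positivity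
  obtain ⟨C, hC, Xf, hXf, hfew⟩ := few_primesK G hk1 h1k κh
  obtain ⟨D, hD, Xg, hXg, hF'⟩ := hfam
  obtain ⟨Xs, hXs, hsets⟩ := card_setsM K hk
  obtain ⟨Q, hQ⟩ : ∃ Q : ℝ, Q = (2 * k) ^ (2 * (k : ℝ)) := ⟨_, rfl⟩
  refine ⟨C, hC, D, hD, max (max Xf Xg) (max Xs Q), hXf.trans ((le_max_left _ _).trans (le_max_left _ _)),
    fun X hX M hM1 hMX F hF => ?_⟩
  have hM0 : 0 < M := by linarith
  have e1 : Xf ≤ X := ((le_max_left _ _).trans (le_max_left _ _)).trans hX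
  have e2 : Xg ≤ X := ((le_max_right _ _).trans (le_max_left _ _)).trans hX
  have e3 : Xs ≤ X := ((le_max_left _ _).trans (le_max_right _ _)).trans hX
  have e4 : Q ≤ X := ((le_max_right _ _).trans (le_max_right _ _)).trans hX
  have hX16 : 16 ≤ X := hXf.trans e1
  have hX1 : 1 ≤ X := by linarith
  have hXpos : 0 < X := by linarith
  have hlog : 1 ≤ Real.log X := by
    have := Pool.Agent.TH876.Loc.log_facts hX16
    have := Real.exp_one_gt_d9
    linarith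
  -- `log X ≤ X ^ (1/k)`
  have hlogX : Real.log X ≤ X ^ (1 / (k : ℝ)) := by
    have h1 : Real.log X ≤ X ^ (1 / (2 * (k : ℝ))) / (1 / (2 * (k : ℝ))) :=
      Real.log_le_rpow_div hXpos.le (by positivity)
    have h2 : X ^ (1 / (2 * (k : ℝ))) / (1 / (2 * (k : ℝ))) = 2 * k * X ^ (1 / (2 * (k : ℝ))) := by
      field_simp
    have h3 : 2 * (k : ℝ) ≤ X ^ (1 / (2 * (k : ℝ))) := by
      have h4 : Q ^ (1 / (2 * (k : ℝ))) ≤ X ^ (1 / (2 * (k : ℝ))) :=
        Real.rpow_le_rpow (by rw [hQ]; positivity) e4 (by positivity)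
      have h5 : Q ^ (1 / (2 * (k : ℝ))) = 2 * k := by
        rw [hQ, ← Real.rpow_mul (by positivity)]
        have : 2 * (k : ℝ) * (1 / (2 * (k : ℝ))) = 1 := by field_simp
        rw [this, Real.rpow_one]
      linarith
    have h6 : X ^ (1 / (k : ℝ)) = X ^ (1 / (2 * (k : ℝ))) * X ^ (1 / (2 * (k : ℝ))) := by
      rw [← Real.rpow_add hXpos]
      congr 1
      field_simp
      norm_num
    rw [h6]
    rw [h2] at h1
    exact h1.trans (mul_le_mul_of_nonneg_right h3 (by positivity))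
  rcases F.eq_empty_or_nonempty with hFe | ⟨x0, hx0⟩
  · rw [hFe, Finset.card_empty, Nat.cast_zero]
    positivity
  obtain ⟨_, _, _, _, _, _, p0, _⟩ := hF x0 hx0
  have hexF : ∀ x : K, ∃ (S : Finset (Pr K)) (A B E : Fin 3) (p : Pr K), x ∈ F →
      nn S ≤ M * X ^ (1 / (k : ℝ)) ∧
        A ≠ B ∧ B ≠ E ∧ A ≠ E ∧ InP k S A B E x p ∧ Nv p ≤ X ∧
        (C * Real.log X) ^ S.card * X ^ (1 / (k : ℝ)) < hgt x := by
    intro x
    by_cases hx : x ∈ F
    · obtain ⟨_, _, S, A, B, E, p, hh⟩ := hF x hx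
      exact ⟨S, A, B, E, p, fun _ => hh⟩
    · exact ⟨∅, 0, 0, 0, p0, fun h => absurd h hx⟩
  choose Sx Ax Bx Ex px hx using hexF
  obtain ⟨U, hU⟩ : ∃ U, U = F.image Sx := ⟨_, rfl⟩
  obtain ⟨R, hR⟩ : ∃ R : Finset (Pr K) → Finset (Pr K), R = fun S =>
    (F.filter fun x => Sx x = S).image px := ⟨_, rfl⟩
  obtain ⟨W, hW⟩ : ∃ W, W = F.image fun x => insert (px x) (Sx x) := ⟨_, rfl⟩
  have hUc : (U.card : ℝ) ≤ M * X ^ (2 / (k : ℝ)) := by
    refine hsets X e3 M hM1 hMX U fun S hS => ?_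
    rw [hU, Finset.mem_image] at hS
    obtain ⟨x, hxF, rfl⟩ := hS
    exact (hx x hxF).1
  have hRc : ∀ S ∈ U, ((R S).card : ℝ) ≤ X ^ (1 / (k : ℝ)) := by
    intro S hS
    refine hfew X e1 S (R S) ?_ ?_ ?_
    · rw [hU, Finset.mem_image] at hS
      obtain ⟨x, hxF, rfl⟩ := hS
      exact (hx x hxF).1.trans (M_le hk hX1 hMX (by norm_num))
    · intro p hp
      rw [hR, Finset.mem_image] at hp
      obtain ⟨x, hx1, rfl⟩ := hp
      obtain ⟨hxF, rfl⟩ := Finset.mem_filter.1 hx1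
      obtain ⟨a1, a2, a3, a4, a5, a6, a7⟩ := hx x hxF
      exact ⟨a5.pS, a6⟩
    · intro p hp
      rw [hR, Finset.mem_image] at hp
      obtain ⟨x, hx1, rfl⟩ := hp
      obtain ⟨hxF, rfl⟩ := Finset.mem_filter.1 hx1
      obtain ⟨a1, a2, a3, a4, a5, a6, a7⟩ := hx x hxF
      exact ⟨Ax x, Bx x, Ex x, x, a2, a3, a4, (hF x hxF).1, a5, a7, (hF x hxF).2.1⟩
  have hWc : (W.card : ℝ) ≤ M * X ^ (3 / (k : ℝ)) := by
    have h1 : W ⊆ U.biUnion fun S => (R S).image fun p => insert p S := by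
      intro T hT
      rw [hW, Finset.mem_image] at hT
      obtain ⟨x, hxF, rfl⟩ := hT
      rw [Finset.mem_biUnion]
      refine ⟨Sx x, by rw [hU]; exact Finset.mem_image_of_mem _ hxF, ?_⟩
      rw [Finset.mem_image]
      refine ⟨px x, ?_, rfl⟩
      rw [hR, Finset.mem_image]
      exact ⟨x, Finset.mem_filter.2 ⟨hxF, rfl⟩, rfl⟩
    have h2 : W.card ≤ ∑ S ∈ U, (R S).card := by
      refine (Finset.card_le_card h1).trans (Finset.card_biUnion_le.trans ?_)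
      exact Finset.sum_le_sum fun S _ => Finset.card_image_le
    have h3 : (W.card : ℝ) ≤ ∑ S ∈ U, ((R S).card : ℝ) := by exact_mod_cast h2
    refine h3.trans ((Finset.sum_le_sum hRc).trans ?_)
    rw [Finset.sum_const, nsmul_eq_mul]
    refine (mul_le_mul_of_nonneg_right hUc (by positivity)).trans (le_of_eq ?_)
    rw [mul_assoc, ← Real.rpow_add hXpos]
    congr 2
    ring
  have hmain := hF' X e2 W (by
      intro T hT
      rw [hW, Finset.mem_image] at hT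
      obtain ⟨x, hxF, rfl⟩ := hT
      obtain ⟨a1, a2, a3, a4, a5, a6, a7⟩ := hx x hxF
      rw [Pool.Agent.Y728.nn_insert a5.pS, sq]
      exact mul_le_mul a6 (a1.trans (M_le hk hX1 hMX (by norm_num))) (nn_pos _).le hXpos.le) F (by
      intro x hxF
      obtain ⟨a1, a2, a3, a4, a5, a6, a7⟩ := hx x hxF
      obtain ⟨b1, b2, _⟩ := hF x hxF
      refine ⟨b1, ?_, b2, insert (px x) (Sx x), ?_, InP_light b1 a2 a3 a4 a5⟩
      · have h1 : 1 ≤ (C * Real.log X) ^ (Sx x).card := one_le_pow₀ (by nlinarith)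
        have h2 : 0 ≤ X ^ (1 / (k : ℝ)) := by positivity
        nlinarith
      · rw [hW]
        exact Finset.mem_image_of_mem _ hxF)
  refine hmain.trans ?_
  calc D * W.card * X ^ (2 / (k : ℝ)) ≤ D * (M * X ^ (3 / (k : ℝ))) * X ^ (2 / (k : ℝ)) :=
        mul_le_mul_of_nonneg_right (mul_le_mul_of_nonneg_left hWc hD.le) (by positivity)
    _ = D * (M * (X ^ (3 / (k : ℝ)) * X ^ (2 / (k : ℝ)))) := by ring
    _ = D * (M * X ^ (5 / (k : ℝ))) := by
        rw [← Real.rpow_add hXpos]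
        congr 3
        ring

end Pool.Agent.H59.QI
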