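import Pool.Agent.H59.L.S8.Y515.LowK

/-!
# Points of one scale, small heights (number fields), with a parameter

Adaptation of `Y515/LowK.lean` (helper515, for helper728).
-/

set_option autoImplicit false

namespace Pool.Agent.H59.QI

open Finset NumberField IsDedekindDomain Pool.Agent.H691R3 Pool.Agent.TH876.Loc
open Pool.Agent.TH876.KR (Sc InP sum_sets)
open Pool.Agent.Y515 (low_scaleK)

theorem low_partM (K : Type) [Field K] [NumberField K] {k : ℕ} (hk : 9 ≤ k) {C η : ℝ}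
    (hC : 1 ≤ C) (hη : 0 < η) : ∃ D : ℝ, 0 < D ∧ ∃ X0 : ℝ, 16 ≤ X0 ∧ ∀ X : ℝ, X0 ≤ X →
    ∀ M : ℝ, 1 ≤ M → M ≤ X ^ (2 / 3 : ℝ) →
    ∀ l : ℝ, Real.log X ^ (2 + η) ≤ l → ∀ F : Finset K, (∀ x ∈ F, Pt x ∧ Sc k l x ∧
      ∃ (S : Finset (Pr K)) (A B E : Fin 3) (p : Pr K), nn S ≤ M * X ^ (1 / (k : ℝ)) ∧
        A ≠ B ∧ B ≠ E ∧ A ≠ E ∧ InP k S A B E x p ∧ Nv p ≤ X ∧
        l ≤ (C * Real.log X) ^ S.card * X ^ (1 / (k : ℝ))) →
    (F.card : ℝ) ≤ D * (M * X ^ (5 / (k : ℝ))) := by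
  classical
  have hk1 : 1 ≤ k := by omega
  have hk9 : (9 : ℝ) ≤ k := by exact_mod_cast hk
  have hk0 : (0 : ℝ) < k := by linarith
  have h1k : 0 < 1 / (k : ℝ) := by positivity
  have h1k9 : 1 / (k : ℝ) ≤ 1 / 9 := one_div_le_one_div_of_le (by norm_num) hk9
  obtain ⟨C2, hC2⟩ : ∃ C2 : ℝ, C2 = C * 2 ^ (99 * k) := ⟨_, rfl⟩
  have h2k : (1 : ℝ) ≤ 2 ^ (99 * k) := one_le_pow₀ (by norm_num)
  have hC2C : C ≤ C2 := by
    rw [hC2]
    exact le_mul_of_one_le_right (by linarith) h2k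
  have hC21 : 1 ≤ C2 := hC.trans hC2C
  obtain ⟨Xs, hXs1, hsum⟩ := Pool.Agent.Y96.sum_bigK K C2 (1 / (k : ℝ)) hC21 h1k
  obtain ⟨D1, hD1, L0, hL0, hlow⟩ := low_scaleK K (k := k) (by omega) hη
  obtain ⟨hfinU, -⟩ := sum_sets K 1 le_rfl 1 one_pos
  refine ⟨D1, hD1, max Xs (Real.exp L0), hXs1.trans (le_max_left _ _),
    fun X hX M' hM'1 hM'X l hl F hF => ?_⟩
  have hXs : Xs ≤ X := (le_max_left _ _).trans hX
  have hXL : Real.exp L0 ≤ X := (le_max_right _ _).trans hX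
  have hX16 : 16 ≤ X := hXs1.trans hXs
  have hX1 : 1 ≤ X := by linarith
  have hX0 : 0 < X := by linarith
  obtain ⟨L, hL⟩ : ∃ L, L = Real.log X := ⟨_, rfl⟩
  have hLL : L0 ≤ L := by rw [hL, Real.le_log_iff_exp_le hX0]; exact hXL
  have hL3 : 3 ≤ L := hL0.trans hLL
  have hM'0 : 0 < M' := by linarith
  have hMa : ∀ a : ℝ, 0 ≤ a → a ≤ 3 → M' * X ^ (a / (k : ℝ)) ≤ X := by
    intro a ha0 ha
    have h1 : a / (k : ℝ) ≤ 1 / 3 := by
      rw [div_le_iff₀ hk0]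
      linarith
    calc M' * X ^ (a / (k : ℝ)) ≤ X ^ (2 / 3 : ℝ) * X ^ (a / (k : ℝ)) :=
          mul_le_mul_of_nonneg_right hM'X (by positivity)
      _ = X ^ (2 / 3 + a / (k : ℝ)) := by rw [← Real.rpow_add hX0]
      _ ≤ X ^ (1 : ℝ) := Real.rpow_le_rpow_of_exponent_le hX1 (by linarith)
      _ = X := Real.rpow_one X
  obtain ⟨M, hM⟩ : ∃ M : ℝ, M = M' * X ^ (1 / (k : ℝ)) := ⟨_, rfl⟩
  have hM1 : 1 ≤ M := by
    rw [hM]
    exact one_le_mul_of_one_le_of_one_le hM'1 (Real.one_le_rpow hX1 (by positivity))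
  have hMX : M ≤ X := by
    rw [hM]
    exact hMa 1 (by norm_num) (by norm_num)
  set U := (hfinU M).toFinset with hU
  have hUm : ∀ S : Finset (Pr K), S ∈ U ↔ nn S ≤ M := by
    intro S
    rw [hU, Set.Finite.mem_toFinset]
    rfl
  have hsumM := hsum X hXs M hM1 hMX U (fun S hS => (hUm S).1 hS)
  rw [← hL] at hl hsumM hF
  have hsumM' : ∑ S ∈ U, (C2 * L) ^ S.card ≤ M' * X ^ (2 / (k : ℝ)) := by
    refine hsumM.trans (le_of_eq ?_)
    rw [hM, mul_assoc, ← Real.rpow_add hX0]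
    congr 2
    ring
  -- a single term
  have hterm : ∀ S ∈ U, (C * L) ^ S.card * X ^ (1 / (k : ℝ)) ≤ X := by
    intro S hS
    have e1 : (C * L) ^ S.card ≤ (C2 * L) ^ S.card :=
      pow_le_pow_left₀ (by positivity) (mul_le_mul_of_nonneg_right hC2C (by linarith)) _
    have e2 : (C2 * L) ^ S.card ≤ ∑ S ∈ U, (C2 * L) ^ S.card :=
      Finset.single_le_sum (f := fun S : Finset (Pr K) => (C2 * L) ^ S.card)
        (fun _ _ => by positivity) hS
    calc (C * L) ^ S.card * X ^ (1 / (k : ℝ)) ≤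
        (M' * X ^ (2 / (k : ℝ))) * X ^ (1 / (k : ℝ)) :=
          mul_le_mul_of_nonneg_right (e1.trans (e2.trans hsumM')) (by positivity)
      _ = M' * X ^ (3 / (k : ℝ)) := by
          rw [mul_assoc, ← Real.rpow_add hX0]
          congr 2
          ring
      _ ≤ X := hMa 3 (by norm_num) le_rfl
  obtain ⟨Fm, hFm⟩ : ∃ Fm : Finset (Pr K) → Finset K, Fm = fun S => F.filter fun x =>
      (∃ (A B E : Fin 3) (p : Pr K), A ≠ B ∧ B ≠ E ∧ A ≠ E ∧ InP k S A B E x p ∧ Nv p ≤ X) ∧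
      l ≤ (C * L) ^ S.card * X ^ (1 / (k : ℝ)) := ⟨_, rfl⟩
  have hsub : F ⊆ U.biUnion Fm := by
    intro x hx
    obtain ⟨a1, a2, S, A, B, E, p, hSM, hAB, hBE, hAE, hP, hpX, hlS⟩ := hF x hx
    rw [mem_biUnion]
    refine ⟨S, (hUm S).2 (by rw [hM]; exact hSM), ?_⟩
    rw [hFm, mem_filter]
    exact ⟨hx, ⟨A, B, E, p, hAB, hBE, hAE, hP, hpX⟩, hlS⟩
  have hFmc : ∀ S ∈ U, ((Fm S).card : ℝ) ≤
      D1 * X ^ (1 / (k : ℝ)) * X ^ (1 / (k : ℝ)) * (C2 * L) ^ S.card := by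
    intro S hS
    rcases (Fm S).eq_empty_or_nonempty with he | ⟨t0, ht0⟩
    · rw [he, Finset.card_empty, Nat.cast_zero]
      positivity
    · have hSM := (hUm S).1 hS
      have hlthr : l ≤ (C * L) ^ S.card * X ^ (1 / (k : ℝ)) := by
        rw [hFm, mem_filter] at ht0
        exact ht0.2.2
      have h1 := hlow X hX1 (by rw [← hL]; exact hLL) l (by rw [← hL]; exact hl)
        (hlthr.trans (hterm S hS)) S (hSM.trans hMX) (Fm S) (by
          intro t ht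
          rw [hFm, mem_filter] at ht
          obtain ⟨b1, b2, -⟩ := ht
          exact ⟨(hF t b1).1, (hF t b1).2.1, b2⟩)
      refine h1.trans ?_
      calc D1 * X ^ (1 / (k : ℝ)) * l * ((2 : ℝ) ^ (99 * k)) ^ S.card ≤
          D1 * X ^ (1 / (k : ℝ)) * ((C * L) ^ S.card * X ^ (1 / (k : ℝ))) *
            ((2 : ℝ) ^ (99 * k)) ^ S.card :=
            mul_le_mul_of_nonneg_right (mul_le_mul_of_nonneg_left hlthr (by positivity))
              (by positivity)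
        _ = D1 * X ^ (1 / (k : ℝ)) * X ^ (1 / (k : ℝ)) * ((C * L) ^ S.card *
            ((2 : ℝ) ^ (99 * k)) ^ S.card) := by ring
        _ = D1 * X ^ (1 / (k : ℝ)) * X ^ (1 / (k : ℝ)) * (C2 * L) ^ S.card := by
            rw [← mul_pow, hC2]
            congr 2
            ring
  have h3 : (F.card : ℝ) ≤ ∑ S ∈ U, ((Fm S).card : ℝ) := by
    have := (Finset.card_le_card hsub).trans Finset.card_biUnion_le
    exact_mod_cast this
  refine (h3.trans (Finset.sum_le_sum hFmc)).trans ?_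
  rw [← Finset.mul_sum]
  calc D1 * X ^ (1 / (k : ℝ)) * X ^ (1 / (k : ℝ)) * ∑ S ∈ U, (C2 * L) ^ S.card ≤
      D1 * X ^ (1 / (k : ℝ)) * X ^ (1 / (k : ℝ)) * (M' * X ^ (2 / (k : ℝ))) :=
        mul_le_mul_of_nonneg_left hsumM' (by positivity)
    _ = D1 * (M' * (X ^ (1 / (k : ℝ)) * X ^ (1 / (k : ℝ)) * X ^ (2 / (k : ℝ)))) := by ring
    _ = D1 * (M' * X ^ (4 / (k : ℝ))) := by
        rw [← Real.rpow_add hX0, ← Real.rpow_add hX0]
        congr 3
        ring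
    _ ≤ D1 * (M' * X ^ (5 / (k : ℝ))) := by
        refine mul_le_mul_of_nonneg_left ?_ hD1.le
        refine mul_le_mul_of_nonneg_left ?_ hM'0.le
        refine Real.rpow_le_rpow_of_exponent_le hX1 ?_
        exact div_le_div_of_nonneg_right (by norm_num) hk0.le

end Pool.Agent.H59.QI
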