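import Pool.Agent.H59.L.S8.TH876.KR.Small

set_option autoImplicit false

/-!
# Points of small height: Rankin's method, with a parameter

Adaptation of `KR/Small.lean` (helper263, for helper876).
-/

namespace Pool.Agent.H59.QI

open NumberField IsDedekindDomain Finset Pool.Agent.H691R3 Pool.Agent.TH876.Loc
open Pool.Agent.TH876.KR (rr side df_eq_zero side_sub log_Nv_pos' FiberSmall wt wt_nonneg ex
  prod_wt ex_le df_ex sum_side_le pi_sum_le rpow_le_exp)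

variable {K : Type} [Field K] [NumberField K]

open Classical in
/-- the points for which two given sides have a small radical -/
theorem pair_countM {C a m B σ V : ℝ} (ha : 0 ≤ a) (hσ : 0 ≤ σ) (hC : 1 ≤ C) (hB : 1 ≤ B)
    {i j : Fin 3}
    (hfib : ∀ F : Finset K, (∀ x ∈ F, Pt x ∧ hgt x ≤ B) →
      (∀ x ∈ F, ∀ y ∈ F, ∀ v : Pr K, df (Sum.inr v : Pl K) i x = df (Sum.inr v : Pl K) i y ∧
        df (Sum.inr v : Pl K) j x = df (Sum.inr v : Pl K) j y) → (F.card : ℝ) ≤ C * B ^ C)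
    (hV : ∀ P : Finset (Pr K), ∑ f ∈ Fintype.piFinset (fun _ : P => range (⌊2 * B⌋₊ + 1)),
      ∏ v : P, wt σ a v.1 (f v) ≤ V)
    (F : Finset K) (hF : ∀ x ∈ F, Pt x ∧ hgt x ≤ B ∧ rr i x + rr j x ≤ m) :
    (F.card : ℝ) ≤ C * B ^ C * (Real.exp (a * m + 2 * σ * B) * V ^ 2) := by
  classical
  obtain ⟨P, hP⟩ : ∃ P : Finset (Pr K), P = F.biUnion sp := ⟨_, rfl⟩
  have hsub : ∀ x ∈ F, sp x ⊆ P := by
    intro x hx
    rw [hP]
    exact Finset.subset_biUnion_of_mem sp hx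
  have hV := hV P
  set G : Finset (P → ℕ) := Fintype.piFinset (fun _ : P => range (⌊2 * B⌋₊ + 1)) with hG
  set H : (P → ℕ) → ℝ := fun f => ∏ v : P, wt σ a v.1 (f v) with hH
  have hH0 : ∀ f, 0 ≤ H f := fun f => Finset.prod_nonneg fun v _ => wt_nonneg _ _ _ _
  set φ : K → (P → ℕ) × (P → ℕ) := fun x => (fun v => ex i x v.1, fun v => ex j x v.1) with hφ
  have hBC : 0 ≤ C * B ^ C := by positivity
  -- fibres
  have h1 : ∀ b ∈ F.image φ, (((F.filter fun x => φ x = b).card : ℕ) : ℝ) ≤ C * B ^ C := by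
    intro b _
    refine hfib _ (fun x hx => ?_) ?_
    · obtain ⟨c1, _⟩ := Finset.mem_filter.1 hx
      exact ⟨(hF x c1).1, (hF x c1).2.1⟩
    · intro x hx y hy v
      obtain ⟨c1, c2⟩ := Finset.mem_filter.1 hx
      obtain ⟨d1, d2⟩ := Finset.mem_filter.1 hy
      have e : φ x = φ y := c2.trans d2.symm
      simp only [hφ, Prod.mk.injEq] at e
      by_cases hv : v ∈ P
      · have e1 := congrFun e.1 ⟨v, hv⟩
        have e2 := congrFun e.2 ⟨v, hv⟩
        simp only at e1 e2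
        rw [df_ex (hF x c1).1, df_ex (hF y d1).1, df_ex (hF x c1).1, df_ex (hF y d1).1, e1, e2]
        exact ⟨rfl, rfl⟩
      · have k : ∀ z ∈ F, ∀ l, df (Sum.inr v : Pl K) l z = 0 := by
          intro z hz l
          exact df_eq_zero (hF z hz).1 fun h => hv (hsub z hz (side_sub l z h))
        rw [k x c1, k y d1, k x c1, k y d1]
        exact ⟨rfl, rfl⟩
  have h2 : (F.card : ℝ) ≤ C * B ^ C * ((F.image φ).card : ℝ) := by
    rw [Finset.card_eq_sum_card_image φ F, Nat.cast_sum]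
    refine (Finset.sum_le_sum h1).trans ?_
    rw [Finset.sum_const, nsmul_eq_mul, mul_comm]
  refine h2.trans (mul_le_mul_of_nonneg_left ?_ hBC)
  -- weights
  have h3 : ∀ b ∈ F.image φ, (1 : ℝ) ≤ Real.exp (a * m + 2 * σ * B) * (H b.1 * H b.2) := by
    intro b hb
    obtain ⟨x, hx, rfl⟩ := Finset.mem_image.1 hb
    obtain ⟨c1, c2, c3⟩ := hF x hx
    simp only [hφ, hH]
    rw [prod_wt c1 i (hsub x hx), prod_wt c1 j (hsub x hx), ← Real.exp_add, ← Real.exp_add,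
      Real.one_le_exp_iff]
    have k1 := mul_le_mul_of_nonneg_left ((sum_side_le c1 i).trans c2) hσ
    have k2 := mul_le_mul_of_nonneg_left ((sum_side_le c1 j).trans c2) hσ
    nlinarith
  have h4 : ((F.image φ).card : ℝ) ≤
      ∑ b ∈ F.image φ, Real.exp (a * m + 2 * σ * B) * (H b.1 * H b.2) := by
    rw [Finset.card_eq_sum_ones, Nat.cast_sum]
    exact Finset.sum_le_sum fun b hb => by rw [Nat.cast_one]; exact h3 b hb
  refine h4.trans ?_
  rw [← Finset.mul_sum]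
  refine mul_le_mul_of_nonneg_left ?_ (Real.exp_pos _).le
  have h5 : ∑ b ∈ F.image φ, H b.1 * H b.2 ≤ (∑ f ∈ G, H f) ^ 2 := by
    rw [sq, Finset.sum_mul_sum, ← Finset.sum_product']
    refine Finset.sum_le_sum_of_subset_of_nonneg ?_ fun b _ _ => mul_nonneg (hH0 _) (hH0 _)
    intro b hb
    obtain ⟨x, hx, rfl⟩ := Finset.mem_image.1 hb
    obtain ⟨c1, c2, _⟩ := hF x hx
    rw [Finset.mem_product, hG, Fintype.mem_piFinset, Fintype.mem_piFinset]
    exact ⟨fun v => Finset.mem_range.2 (Nat.lt_succ_of_le (ex_le c1 i v.1 c2)),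
      fun v => Finset.mem_range.2 (Nat.lt_succ_of_le (ex_le c1 j v.1 c2))⟩
  refine h5.trans (pow_le_pow_left₀ (Finset.sum_nonneg fun f _ => hH0 f) hV 2)

variable (K) in
/-- **points of small height** -/
theorem small_totalM (hfib : FiberSmall K) (ε : ℝ) (hε : 0 < ε) :
    ∃ η : ℝ, 0 < η ∧ ∃ L1 : ℝ, 1 ≤ L1 ∧ ∃ C : ℝ, 0 < C ∧
    ∀ X : ℝ, 1 ≤ X → L1 ≤ Real.log X → ∀ M : ℝ, 1 ≤ M → M ≤ X → ∀ F : Finset K,
      (∀ x ∈ F, Pt x ∧ hgt x ≤ Real.log X ^ (2 + η) ∧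
        ∃ i j : Fin 3, i ≠ j ∧ rr i x + rr j x ≤ Real.log M) →
      (F.card : ℝ) ≤ C * (M * X ^ ε) := by
  classical
  obtain ⟨C0, hC0, hfib⟩ := hfib
  obtain ⟨θ, hθ⟩ : ∃ θ : ℝ, θ = ε / 2 := ⟨_, rfl⟩
  have hθ0 : 0 < θ := by rw [hθ]; positivity
  obtain ⟨β, hβ⟩ : ∃ β : ℝ, β = 1 / (1 + θ / 2) := ⟨_, rfl⟩
  have hβ0 : 0 < β := by rw [hβ]; positivity
  have hβ1 : β ≤ 1 := by
    rw [hβ, div_le_one (by positivity)]; linarith
  have haβ : 1 < (1 + θ) * β := by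
    rw [hβ, mul_one_div, lt_div_iff₀ (by positivity)]; linarith
  obtain ⟨η, hη⟩ : ∃ η : ℝ, η = θ / 4 := ⟨_, rfl⟩
  have hη0 : 0 < η := by rw [hη]; positivity
  have hγ : (1 + η) * β < 1 := by
    rw [hβ, mul_one_div, div_lt_one (by positivity), hη]; linarith
  obtain ⟨Z, hZ⟩ : ∃ Z : ℝ, Z = (Module.finrank ℚ K : ℝ) *
    ∑' n : ℕ, ((n : ℝ) ^ ((1 + θ) * β))⁻¹ := ⟨_, rfl⟩
  have hZ0 : 0 ≤ Z := by
    rw [hZ]; exact mul_nonneg (Nat.cast_nonneg _) (tsum_nonneg fun n => by positivity)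
  -- the threshold for `L`
  obtain ⟨W, hW⟩ : ∃ W : ℝ, W = (32 / ε) ^ β * Z / β * (16 / ε) := ⟨_, rfl⟩
  have hW0 : 0 ≤ W := by rw [hW]; positivity
  obtain ⟨γ, hγd⟩ : ∃ γ : ℝ, γ = 1 - (1 + η) * β := ⟨_, rfl⟩
  have hγ0 : 0 < γ := by rw [hγd]; linarith
  obtain ⟨D, hD0, hD⟩ := rpow_le_exp (c := (2 + η) * C0) (δ := ε / 4) (by positivity)
    (by positivity)
  refine ⟨η, hη0, max 1 (W ^ (1 / γ)), le_max_left _ _, 6 * (C0 * D), by positivity,
    fun X hX hL M hM1 hMX F hF => ?_⟩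
  obtain ⟨L, hLd⟩ : ∃ L, L = Real.log X := ⟨_, rfl⟩
  have hM0 : 0 < M := by linarith
  obtain ⟨m, hm⟩ : ∃ m, m = Real.log M := ⟨_, rfl⟩
  have hmL : m ≤ L := by rw [hm, hLd]; exact Real.log_le_log hM0 hMX
  rw [← hLd, ← hm] at hF
  rw [← hLd] at hL
  have hL1 : 1 ≤ L := (le_max_left _ _).trans hL
  have hL0 : 0 < L := by linarith
  have hX0 : 0 < X := by linarith
  have hWL : W ≤ L ^ γ := by
    have h1 : (W ^ (1 / γ)) ^ γ ≤ L ^ γ :=
      Real.rpow_le_rpow (by positivity) ((le_max_right _ _).trans hL) hγ0.le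
    rwa [← Real.rpow_mul hW0, one_div_mul_cancel hγ0.ne', Real.rpow_one] at h1
  obtain ⟨σ, hσ⟩ : ∃ σ : ℝ, σ = ε / 16 * L ^ (-(1 + η)) := ⟨_, rfl⟩
  have hσ0 : 0 < σ := by rw [hσ]; positivity
  obtain ⟨B, hB⟩ : ∃ B : ℝ, B = L ^ (2 + η) := ⟨_, rfl⟩
  have hB1 : 1 ≤ B := by
    rw [hB]; exact Real.one_le_rpow hL1 (by linarith)
  have hσB : σ * B = ε / 16 * L := by
    rw [hσ, hB, mul_assoc, ← Real.rpow_add hL0]
    have : -(1 + η) + (2 + η) = 1 := by ring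
    rw [this, Real.rpow_one]
  have h4 : (2 / σ) ^ β * Z / β ≤ ε / 16 * L := by
    have e1 : 2 / σ = 32 / ε * L ^ (1 + η) := by
      rw [hσ, Real.rpow_neg hL0.le]
      field_simp
      norm_num
    rw [e1, Real.mul_rpow (by positivity) (by positivity), ← Real.rpow_mul hL0.le]
    have e2 : L = L ^ ((1 + η) * β) * L ^ γ := by
      rw [← Real.rpow_add hL0, hγd]
      have : (1 + η) * β + (1 - (1 + η) * β) = 1 := by ring
      rw [this, Real.rpow_one]
    have e3 : (32 / ε) ^ β * L ^ ((1 + η) * β) * Z / β =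
        ε / 16 * (L ^ ((1 + η) * β) * W) := by
      rw [hW]
      field_simp
    rw [e3]
    conv_rhs => rw [e2]
    refine mul_le_mul_of_nonneg_left ?_ (by positivity)
    exact mul_le_mul_of_nonneg_left hWL (by positivity)
  have hV : ∀ P : Finset (Pr K), ∑ f ∈ Fintype.piFinset (fun _ : P => range (⌊2 * B⌋₊ + 1)),
      ∏ v : P, wt σ (1 + θ) v.1 (f v) ≤ Real.exp (ε / 16 * L) := by
    intro P
    refine (pi_sum_le hσ0 hβ0 hβ1 haβ P _).trans (Real.exp_le_exp.2 ?_)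
    rw [← hZ]
    exact h4
  have hBC : B ^ C0 ≤ D * Real.exp (ε / 4 * L) := by
    rw [hB, ← Real.rpow_mul hL0.le]
    exact hD L hL1
  have hpair : ∀ i j : Fin 3, i ≠ j →
      ((F.filter fun x => rr i x + rr j x ≤ m).card : ℝ) ≤ C0 * D * (M * X ^ ε) := by
    intro i j hij
    have h1 := pair_countM (a := 1 + θ) (m := m) (by positivity) hσ0.le hC0 hB1
      (fun F h1 h2 => hfib B hB1 i j hij F h1 h2) hV
      (F.filter fun x => rr i x + rr j x ≤ m) (fun x hx => by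
        obtain ⟨b1, b2⟩ := Finset.mem_filter.1 hx
        obtain ⟨c1, c3, _⟩ := hF x b1
        refine ⟨c1, ?_, b2⟩
        rw [hB]
        exact c3)
    refine h1.trans ?_
    have h5 : Real.exp ((1 + θ) * m + 2 * σ * B) * Real.exp (ε / 16 * L) ^ 2 =
        Real.exp ((1 + θ) * m + ε / 4 * L) := by
      rw [← Real.exp_nat_mul, ← Real.exp_add]
      congr 1
      push_cast
      linear_combination 2 * hσB
    rw [h5]
    calc C0 * B ^ C0 * Real.exp ((1 + θ) * m + ε / 4 * L) ≤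
        C0 * (D * Real.exp (ε / 4 * L)) * Real.exp ((1 + θ) * m + ε / 4 * L) := by
          refine mul_le_mul_of_nonneg_right ?_ (Real.exp_pos _).le
          exact mul_le_mul_of_nonneg_left hBC (by linarith)
      _ = C0 * D * Real.exp (ε / 4 * L + ((1 + θ) * m + ε / 4 * L)) := by
          rw [Real.exp_add (ε / 4 * L)]; ring
      _ ≤ C0 * D * Real.exp (m + L * ε) := by
          refine mul_le_mul_of_nonneg_left (Real.exp_le_exp.2 ?_) (by positivity)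
          rw [hθ]
          nlinarith
      _ = C0 * D * (M * X ^ ε) := by
          rw [Real.exp_add, Real.rpow_def_of_pos hX0, hLd, hm, Real.exp_log hM0]
  have hcover : F ⊆ (Finset.univ.filter fun σ : Fin 3 × Fin 3 => σ.1 ≠ σ.2).biUnion
      (fun σ => F.filter fun x => rr σ.1 x + rr σ.2 x ≤ m) := by
    intro x hx
    obtain ⟨c1, c2, i, j, hij, hle⟩ := hF x hx
    rw [Finset.mem_biUnion]
    exact ⟨(i, j), Finset.mem_filter.2 ⟨Finset.mem_univ _, hij⟩, Finset.mem_filter.2 ⟨hx, hle⟩⟩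
  have h1 : (F.card : ℝ) ≤ ∑ σ ∈ Finset.univ.filter (fun σ : Fin 3 × Fin 3 => σ.1 ≠ σ.2),
      ((F.filter fun x => rr σ.1 x + rr σ.2 x ≤ m).card : ℝ) := by
    exact_mod_cast (Finset.card_le_card hcover).trans Finset.card_biUnion_le
  refine h1.trans ((Finset.sum_le_sum fun σ hσ => hpair σ.1 σ.2 (Finset.mem_filter.1 hσ).2).trans
    (le_of_eq ?_))
  have hc : (Finset.univ.filter fun σ : Fin 3 × Fin 3 => σ.1 ≠ σ.2).card = 6 := by decide
  rw [Finset.sum_const, hc, nsmul_eq_mul]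
  push_cast
  ring

end Pool.Agent.H59.QI
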