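import Pool.Agent.H59.QI.FinalM
import Pool.Agent.H59.L.S8.Y730.QP

/-!
Points of the projective line over a number field, of all heights: three points, one of which is
approached by few primes, and the choice of three among `q` points (after helper867, helper728).
-/

set_option autoImplicit false

namespace Pool.Agent.H59.QI

open NumberField IsDedekindDomain Finset
open Pool.Agent.TH876.KR (form localHeight localHeight_nonneg localHeight_eq localHeight_pos_iff
  log_Nv_pos' m2 form_le good_finite Good m2_of_good log_nn fv_int_le form_eq_of_not_pos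
  bad_finite GoodPr tt Pt_tt L_tt sp_tt tt_inj cc cc_ne side rr mem_side df_inr rr_nonneg counting)
open Pool.Agent.H691R3 Pool.Agent.TH876.Loc
open Pool.Agent.Y730.QP (cnt counting_le)

section
variable {K : Type} [Field K] [NumberField K]

/-- the truncated counting function of one point, not normalised -/
noncomputable def cnt1 (S : Set (Pr K)) (a x : Fin 2 → K) : ℝ := cnt S (fun _ : Fin 1 => a) x

/-- the primes outside `S` where the point `x` approaches `a` -/
theorem primes_of (S : Set (Pr K)) {a x : Fin 2 → K} (ha : a ≠ 0) (hx0 : x ≠ 0)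
    (hx : form a x ≠ 0) : ∃ s : Finset (Pr K), (∀ v, v ∈ s ↔ v ∉ S ∧ 0 < localHeight v a x) ∧
      Real.log (nn s) ≤ cnt1 S a x := by
  classical
  have hfin : {v : Pr K | v ∉ S ∧ 0 < ∑ _i : Fin 1, localHeight v a x}.Finite := by
    refine (Pool.Agent.Y730.QP.supp_finite (a := fun _ : Fin 1 => a) (fun _ => ha) hx0
      (fun _ => hx)).subset ?_
    rintro v ⟨-, hv⟩
    refine ⟨0, ?_⟩
    intro h
    rw [Finset.sum_eq_zero fun i _ => h] at hv
    exact lt_irrefl _ hv
  refine ⟨hfin.toFinset, fun v => ?_, ?_⟩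
  · rw [Set.Finite.mem_toFinset]
    show (v ∉ S ∧ 0 < ∑ _i : Fin 1, localHeight v a x) ↔ _
    rw [Finset.sum_const, Finset.card_univ, Fintype.card_fin, one_smul]
  · refine le_trans (le_of_eq ?_) (counting_le S (a := fun _ : Fin 1 => a) (fun _ => ha) hx0
      (fun _ => hx))
    unfold counting
    rw [log_nn, ← finsum_mem_coe_finset, Set.Finite.coe_toFinset]
    rfl

/-- at a good prime where `x` does not approach `a i` the `i`-th side is not involved -/
theorem side_tt {a : Fin 3 → Fin 2 → K} (ha : ∀ i j, i ≠ j → form (a i) (a j) ≠ 0)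
    {x : Fin 2 → K} (hx : ∀ i, form (a i) x ≠ 0) {v : Pr K} (hg : GoodPr a v) {i : Fin 3}
    (h : ¬ 0 < localHeight v (a i) x) : v ∉ side i (tt a x) := by
  have h1 : fv v (form (a i) x) = m2 v x := by
    rw [form_eq_of_not_pos v (hx i) h, hg.1 i, one_mul]
  have h2 : ∀ i, fv v (cc a i) = 1 := by
    intro i
    fin_cases i
    · exact hg.2 1 2 (by decide)
    · exact hg.2 2 0 (by decide)
    · exact hg.2 0 1 (by decide)
  have e : ∀ j, fv v (L j (tt a x)) =
      fv v ((cc a 1 * form (a 1) x)⁻¹) * fv v (form (a j) x) := by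
    intro j
    rw [L_tt ha hx j, map_mul, map_mul (fv v) (cc a j), h2, one_mul]
  have h3 : ∀ j, fv v (L j (tt a x)) ≤ fv v (L i (tt a x)) := by
    intro j
    rw [e j, e i, h1]
    refine mul_le_mul_of_nonneg_left ?_ ((fv v).nonneg _)
    refine (form_le v _ _).trans ?_
    rw [hg.1 j, one_mul]
  have hM : M (Sum.inr v : Pl K) (tt a x) = fv v (L i (tt a x)) := by
    obtain ⟨m, hm⟩ := M_attained (Sum.inr v : Pl K) (tt a x)
    have hm' : M (Sum.inr v : Pl K) (tt a x) = fv v (L m (tt a x)) := hm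
    refine le_antisymm ?_ (av_L_le (Sum.inr v : Pl K) (tt a x) i)
    rw [hm']
    exact h3 m
  rw [mem_side (Pt_tt ha hx), df_inr, hM, sub_self]
  exact lt_irrefl _

theorem log_nn_union [DecidableEq (Pr K)] (s t : Finset (Pr K)) :
    Real.log (nn (s ∪ t)) ≤ Real.log (nn s) + Real.log (nn t) := by
  rw [log_nn, log_nn, log_nn]
  exact Pool.Agent.TH876.KR.cho_union s t

theorem log_nn_mono {s t : Finset (Pr K)} (h : s ⊆ t) : Real.log (nn s) ≤ Real.log (nn t) := by
  rw [log_nn, log_nn]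
  exact Finset.sum_le_sum_of_subset_of_nonneg h fun v _ _ => (log_Nv_pos' v).le

theorem rr_eq_log (i : Fin 3) (x : K) : rr i x = Real.log (nn (side i x)) := by
  rw [log_nn]
  rfl

end

/-- **points of all heights, three points of the line** -/
theorem three_upperK (K : Type) [Field K] [NumberField K] (S : Set (Pr K)) (hS : S.Finite)
    (q : ℕ) (hq : 3 ≤ q) (a : Fin q → Fin 2 → K) (ha0 : ∀ i, a i ≠ 0)
    (ha : ∀ i j, i ≠ j → form (a i) (a j) ≠ 0) (ε : ℝ) (hε : 0 < ε) :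
    ∃ D : ℝ, 0 < D ∧ ∀ X A : ℝ, 1 ≤ X → 1 ≤ A →
    ∀ G : Finset (Projectivization K (Fin 2 → K)), (∀ P ∈ G, ∃ (x : Fin 2 → K) (hx : x ≠ 0),
      P = Projectivization.mk K x hx ∧ (∀ i, form (a i) x ≠ 0) ∧
      ∃ i b c : Fin q, i ≠ b ∧ b ≠ c ∧ i ≠ c ∧
        cnt1 S (a i) x + cnt1 S (a b) x + cnt1 S (a c) x ≤ Real.log X ∧
        cnt1 S (a i) x ≤ Real.log A) →
    (G.card : ℝ) ≤ D * X ^ ε * (A * X) ^ (1 / 2 : ℝ) := by
  classical
  obtain ⟨T, hT⟩ := bad_finite hq S hS ha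
  obtain ⟨D, hD, h⟩ := refK K ε hε
  obtain ⟨R, hR⟩ : ∃ R : ℝ, R = nn T := ⟨_, rfl⟩
  have hR1 : 1 ≤ R := by rw [hR]; exact one_le_nn T
  have hR0 : 0 < R := by linarith
  refine ⟨((q : ℝ) ^ 3 + 1) * (D * R ^ ε * (R * R) ^ (1 / 2 : ℝ)), by positivity,
    fun X A hX hA G hG => ?_⟩
  have hX0 : 0 < X := by linarith
  have hA0 : 0 < A := by linarith
  -- the representatives
  have hex : ∀ P : Projectivization K (Fin 2 → K), ∃ (x : Fin 2 → K) (σ : Fin q × Fin q × Fin q),
      P ∈ G → (∃ hx : x ≠ 0, P = Projectivization.mk K x hx) ∧ (∀ i, form (a i) x ≠ 0) ∧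
        σ.1 ≠ σ.2.1 ∧ σ.2.1 ≠ σ.2.2 ∧ σ.1 ≠ σ.2.2 ∧
        cnt1 S (a σ.1) x + cnt1 S (a σ.2.1) x + cnt1 S (a σ.2.2) x ≤ Real.log X ∧
        cnt1 S (a σ.1) x ≤ Real.log A := by
    intro P
    by_cases hP : P ∈ G
    · obtain ⟨x, hx0, e, hx, i, b, c, h1, h2, h3, h4, h5⟩ := hG P hP
      exact ⟨x, (i, b, c), fun _ => ⟨⟨hx0, e⟩, hx, h1, h2, h3, h4, h5⟩⟩
    · exact ⟨0, (⟨0, by omega⟩, ⟨0, by omega⟩, ⟨0, by omega⟩), fun h => absurd h hP⟩
  choose f g hfg using hex
  have hone : ∀ σ : Fin q × Fin q × Fin q, ((G.filter fun P => g P = σ).card : ℝ) ≤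
      D * (X * R) ^ ε * ((A * R) * (X * R)) ^ (1 / 2 : ℝ) := by
    intro σ
    by_cases hne : σ.1 ≠ σ.2.1 ∧ σ.2.1 ≠ σ.2.2 ∧ σ.1 ≠ σ.2.2
    swap
    · have : G.filter (fun P => g P = σ) = ∅ := by
        rw [Finset.eq_empty_iff_forall_notMem]
        intro P hP
        obtain ⟨h1, h2⟩ := Finset.mem_filter.1 hP
        obtain ⟨-, -, k1, k2, k3, -, -⟩ := hfg P h1
        rw [h2] at k1 k2 k3
        exact hne ⟨k1, k2, k3⟩
      rw [this, Finset.card_empty, Nat.cast_zero]
      positivity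
    obtain ⟨n1, n2, n3⟩ := hne
    obtain ⟨u, hu⟩ : ∃ u : Fin 3 → Fin q, u = ![σ.1, σ.2.1, σ.2.2] := ⟨_, rfl⟩
    have huinj : ∀ i j, i ≠ j → u i ≠ u j := by
      intro i j hij
      rw [hu]
      fin_cases i <;> fin_cases j <;> first | exact absurd rfl hij | skip
      · exact n1
      · exact n3
      · exact n1.symm
      · exact n2
      · exact n3.symm
      · exact n2.symm
    have hau : ∀ i j, i ≠ j → form ((fun k => a (u k)) i) ((fun k => a (u k)) j) ≠ 0 :=
      fun i j hij => ha _ _ (huinj i j hij)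
    have hinj : Set.InjOn (fun P => tt (fun k => a (u k)) (f P)) (G.filter fun P => g P = σ) := by
      intro p hp r hr hpr
      have hp' := Finset.mem_filter.1 (Finset.mem_coe.1 hp)
      have hr' := Finset.mem_filter.1 (Finset.mem_coe.1 hr)
      obtain ⟨⟨hp0, ep⟩, hpx, _⟩ := hfg p hp'.1
      obtain ⟨⟨hr0, er⟩, hrx, _⟩ := hfg r hr'.1
      obtain ⟨k, hk⟩ := tt_inj hau (x := f p) (y := f r) (fun i => hpx _)
        (fun i => hrx _) hpr
      rw [ep, er, Projectivization.mk_eq_mk_iff']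
      exact ⟨k, hk⟩
    rw [← Finset.card_image_of_injOn hinj]
    refine h (X * R) (A * R) (one_le_mul_of_one_le_of_one_le hX hR1)
      (one_le_mul_of_one_le_of_one_le hA hR1) _ ?_
    intro t ht
    obtain ⟨P, hP, rfl⟩ := Finset.mem_image.1 ht
    obtain ⟨hPG, hPσ⟩ := Finset.mem_filter.1 hP
    obtain ⟨⟨hx0, ep⟩, hx, -, -, -, h4, h5⟩ := hfg P hPG
    rw [hPσ] at h4 h5
    obtain ⟨x, hxe⟩ : ∃ x, x = f P := ⟨_, rfl⟩
    rw [← hxe] at hx h4 h5 hx0
    show Pt (tt (fun k => a (u k)) (f P)) ∧ nn (sp (tt (fun k => a (u k)) (f P))) ≤ X * R ∧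
      ∃ i : Fin 3, rr i (tt (fun k => a (u k)) (f P)) ≤ Real.log (A * R)
    rw [← hxe]
    have hPt := Pt_tt hau (x := x) fun i => hx _
    have hsl : ∀ k : Fin 3, ∃ s : Finset (Pr K),
        (∀ v, v ∈ s ↔ v ∉ S ∧ 0 < localHeight v (a (u k)) x) ∧
        Real.log (nn s) ≤ cnt1 S (a (u k)) x := fun k => primes_of S (ha0 _) hx0 (hx _)
    choose s hs1 hs2 using hsl
    have hside : ∀ k : Fin 3, side k (tt (fun k => a (u k)) x) ⊆ T ∪ s k := by
      intro k v hv
      by_contra hcon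
      rw [Finset.mem_union, not_or] at hcon
      obtain ⟨k1, k2⟩ := hcon
      obtain ⟨hvS, hg⟩ := hT v k1
      refine side_tt hau (x := x) (fun i => hx _) (v := v) ⟨fun i => hg.1 _, fun i j hij => hg.2 _ _
        (huinj i j hij)⟩ (i := k) ?_ hv
      intro h6
      exact k2 ((hs1 k v).2 ⟨hvS, h6⟩)
    refine ⟨hPt, ?_, 0, ?_⟩
    · rw [← Real.log_le_log_iff (nn_pos _) (by positivity), Real.log_mul hX0.ne' hR0.ne']
      have hsp : sp (tt (fun k => a (u k)) x) ⊆ T ∪ (s 0 ∪ (s 1 ∪ s 2)) := by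
        intro v hv
        obtain ⟨k, hk⟩ := (Pool.Agent.TH876.KR.mem_sp_iff hPt v).1 hv
        have hk' := hside k hk
        rw [Finset.mem_union] at hk'
        rcases hk' with hk' | hk'
        · exact Finset.mem_union_left _ hk'
        · refine Finset.mem_union_right _ ?_
          fin_cases k
          · exact Finset.mem_union_left _ hk'
          · exact Finset.mem_union_right _ (Finset.mem_union_left _ hk')
          · exact Finset.mem_union_right _ (Finset.mem_union_right _ hk')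
      have e1 := (log_nn_mono hsp).trans (log_nn_union _ _)
      have e2 := log_nn_union (s 0) (s 1 ∪ s 2)
      have e3 := log_nn_union (s 1) (s 2)
      have f0 := hs2 0
      have f1 := hs2 1
      have f2 := hs2 2
      have g0 : cnt1 S (a (u 0)) x = cnt1 S (a σ.1) x := by rw [hu]; rfl
      have g1 : cnt1 S (a (u 1)) x = cnt1 S (a σ.2.1) x := by rw [hu]; rfl
      have g2 : cnt1 S (a (u 2)) x = cnt1 S (a σ.2.2) x := by rw [hu]; rfl
      rw [g0] at f0
      rw [g1] at f1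
      rw [g2] at f2
      rw [← hR] at e1
      linarith
    · rw [rr_eq_log, Real.log_mul hA0.ne' hR0.ne']
      have e1 := (log_nn_mono (hside 0)).trans (log_nn_union _ _)
      have f0 := hs2 0
      have g0 : cnt1 S (a (u 0)) x = cnt1 S (a σ.1) x := by rw [hu]; rfl
      rw [g0] at f0
      rw [← hR] at e1
      linarith
  have h1 : G.card = ∑ σ : Fin q × Fin q × Fin q, (G.filter fun P => g P = σ).card :=
    Finset.card_eq_sum_card_fiberwise fun p _ => Finset.mem_univ (g p)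
  have h2 : (G.card : ℝ) ≤ ((q : ℝ) ^ 3) *
      (D * (X * R) ^ ε * ((A * R) * (X * R)) ^ (1 / 2 : ℝ)) := by
    rw [h1]
    push_cast
    refine (Finset.sum_le_sum fun σ _ => hone σ).trans (le_of_eq ?_)
    rw [Finset.sum_const, Finset.card_univ, Fintype.card_prod, Fintype.card_prod, Fintype.card_fin,
      nsmul_eq_mul]
    push_cast
    ring
  have h3 : 0 ≤ D * (X * R) ^ ε * ((A * R) * (X * R)) ^ (1 / 2 : ℝ) := by positivity
  refine (h2.trans (mul_le_mul_of_nonneg_right (by linarith : (q : ℝ) ^ 3 ≤ (q : ℝ) ^ 3 + 1)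
    h3)).trans (le_of_eq ?_)
  have e1 : (X * R) ^ ε = X ^ ε * R ^ ε := Real.mul_rpow hX0.le hR0.le
  have e2 : ((A * R) * (X * R)) ^ (1 / 2 : ℝ) = (A * X) ^ (1 / 2 : ℝ) * (R * R) ^ (1 / 2 : ℝ) := by
    rw [← Real.mul_rpow (by positivity) (by positivity)]
    congr 1
    ring
  rw [e1, e2]
  ring

/-- two light indices different from a given one -/
theorem two_light {d : ℕ} (f : Fin (d + 3) → ℝ) (i : Fin (d + 3)) :
    ∃ b c : Fin (d + 3), i ≠ b ∧ b ≠ c ∧ i ≠ c ∧
      f b + f c ≤ 2 / ((d : ℝ) + 2) * (∑ j, f j - f i) := by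
  classical
  have hn1 : ((Finset.univ : Finset (Fin (d + 3))).erase i).Nonempty := by
    rw [← Finset.card_pos, Finset.card_erase_of_mem (Finset.mem_univ _), Finset.card_univ,
      Fintype.card_fin]
    omega
  obtain ⟨b, hb, hbmin⟩ := Finset.exists_min_image _ f hn1
  have hn2 : (((Finset.univ : Finset (Fin (d + 3))).erase i).erase b).Nonempty := by
    rw [← Finset.card_pos, Finset.card_erase_of_mem hb, Finset.card_erase_of_mem (Finset.mem_univ _),
      Finset.card_univ, Fintype.card_fin]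
    omega
  obtain ⟨c, hc, hcmin⟩ := Finset.exists_min_image _ f hn2
  have hbi : b ≠ i := (Finset.mem_erase.1 hb).1
  have hcb : c ≠ b := (Finset.mem_erase.1 hc).1
  have hci : c ≠ i := (Finset.mem_erase.1 (Finset.mem_erase.1 hc).2).1
  refine ⟨b, c, hbi.symm, hcb.symm, hci.symm, ?_⟩
  have h1 : ∑ j, f j = f i + (f b + ∑ j ∈ (Finset.univ.erase i).erase b, f j) := by
    rw [Finset.add_sum_erase _ f hb, Finset.add_sum_erase _ f (Finset.mem_univ i)]
  have h2 : ((d : ℝ) + 1) * f c ≤ ∑ j ∈ (Finset.univ.erase i).erase b, f j := by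
    have h3 := Finset.card_nsmul_le_sum ((Finset.univ.erase i).erase b) f (f c) hcmin
    rw [Finset.card_erase_of_mem hb, Finset.card_erase_of_mem (Finset.mem_univ _),
      Finset.card_univ, Fintype.card_fin, nsmul_eq_mul] at h3
    have h4 : ((d + 3 - 1 - 1 : ℕ) : ℝ) = (d : ℝ) + 1 := by
      have : d + 3 - 1 - 1 = d + 1 := by omega
      rw [this]
      push_cast
      ring
    rwa [h4] at h3
  have h5 : f b ≤ f c := hbmin c (Finset.mem_erase.2 ⟨hci, Finset.mem_univ _⟩)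
  have hd : (0 : ℝ) < (d : ℝ) + 2 := by positivity
  rw [div_mul_eq_mul_div, le_div_iff₀ hd, h1]
  have h6 : 0 ≤ (d : ℝ) * (f c - f b) := mul_nonneg (Nat.cast_nonneg _) (by linarith)
  nlinarith

/-- a light index -/
theorem one_light {d : ℕ} (f : Fin (d + 3) → ℝ) :
    ∃ i : Fin (d + 3), f i ≤ (∑ j, f j) / ((d : ℝ) + 3) := by
  by_contra hcon
  push Not at hcon
  have h1 : ∑ _j : Fin (d + 3), (∑ j, f j) / ((d : ℝ) + 3) < ∑ j, f j :=
    Finset.sum_lt_sum_of_nonempty Finset.univ_nonempty fun j _ => hcon j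
  rw [Finset.sum_const, Finset.card_univ, Fintype.card_fin, nsmul_eq_mul] at h1
  push_cast at h1
  have hd : (0 : ℝ) < (d : ℝ) + 3 := by positivity
  rw [mul_div_cancel₀ _ hd.ne'] at h1
  exact lt_irrefl _ h1

/-- **points of all heights, `q = d + 3` points of the line** -/
theorem line_upperK (K : Type) [Field K] [NumberField K] (S : Set (Pr K)) (hS : S.Finite)
    (d : ℕ) (a : Fin (d + 3) → Fin 2 → K) (ha0 : ∀ i, a i ≠ 0)
    (ha : ∀ i j, i ≠ j → form (a i) (a j) ≠ 0) (ε : ℝ) (hε : 0 < ε) :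
    ∃ D : ℝ, 0 < D ∧ ∀ X A : ℝ, 1 ≤ X → 1 ≤ A →
    ∀ G : Finset (Projectivization K (Fin 2 → K)), (∀ P ∈ G, ∃ (x : Fin 2 → K) (hx : x ≠ 0),
      P = Projectivization.mk K x hx ∧ (∀ i, form (a i) x ≠ 0) ∧
      ∑ l, cnt1 S (a l) x ≤ Real.log X ∧ ∃ i, cnt1 S (a i) x ≤ Real.log A) →
    (G.card : ℝ) ≤ D * X ^ ε * (X * A ^ ((d : ℝ) + 1)) ^ (1 / ((d : ℝ) + 2)) := by
  classical
  obtain ⟨D, hD, h⟩ := three_upperK K S hS (d + 3) (by omega) a ha0 ha ε hε
  refine ⟨D, hD, fun X A hX hA F hF => ?_⟩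
  have hX0 : 0 < X := by linarith
  have hA0 : 0 < A := by linarith
  have hd2 : (0 : ℝ) < (d : ℝ) + 2 := by positivity
  have hd3 : (0 : ℝ) < (d : ℝ) + 3 := by positivity
  have hd0 : (0 : ℝ) ≤ d := Nat.cast_nonneg d
  -- reduce to `A ≤ X ^ (1 / q)`
  obtain ⟨B, hB⟩ : ∃ B, B = min A (X ^ (1 / ((d : ℝ) + 3))) := ⟨_, rfl⟩
  have hB1 : 1 ≤ B := by rw [hB]; exact le_min hA (Real.one_le_rpow hX (by positivity))
  have hB0 : 0 < B := by linarith
  have hBA : B ≤ A := by rw [hB]; exact min_le_left _ _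
  obtain ⟨Z, hZ⟩ : ∃ Z : ℝ, Z = X ^ (2 / ((d : ℝ) + 2)) * B ^ ((d : ℝ) / (d + 2)) := ⟨_, rfl⟩
  have hZ1 : 1 ≤ Z := by
    rw [hZ]
    exact one_le_mul_of_one_le_of_one_le (Real.one_le_rpow hX (by positivity))
      (Real.one_le_rpow hB1 (by positivity))
  have hlZ : Real.log Z = 2 / ((d : ℝ) + 2) * Real.log X + (d : ℝ) / (d + 2) * Real.log B := by
    rw [hZ, Real.log_mul (by positivity) (by positivity), Real.log_rpow hX0, Real.log_rpow hB0]
  have h1 := h Z B hZ1 hB1 F (fun P hP => by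
    obtain ⟨x, hx0, ep, hx, hsum, i0, hi0⟩ := hF P hP
    have hi : ∃ i, cnt1 S (a i) x ≤ Real.log B := by
      rcases le_total A (X ^ (1 / ((d : ℝ) + 3))) with h1 | h1
      · exact ⟨i0, by rw [hB, min_eq_left h1]; exact hi0⟩
      · obtain ⟨j, hj⟩ := one_light fun i => cnt1 S (a i) x
        refine ⟨j, ?_⟩
        rw [hB, min_eq_right h1, Real.log_rpow hX0]
        refine hj.trans ?_
        rw [one_div, ← div_eq_inv_mul]
        exact div_le_div_of_nonneg_right hsum hd3.le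
    obtain ⟨i, hi⟩ := hi
    obtain ⟨b, c, h1, h2, h3, h4⟩ := two_light (fun i => cnt1 S (a i) x) i
    refine ⟨x, hx0, ep, hx, i, b, c, h1, h2, h3, ?_, hi⟩
    rw [hlZ]
    have e1 : 2 / ((d : ℝ) + 2) * (∑ j, cnt1 S (a j) x - cnt1 S (a i) x) ≤
        2 / ((d : ℝ) + 2) * (Real.log X - cnt1 S (a i) x) :=
      mul_le_mul_of_nonneg_left (by linarith) (by positivity)
    have e2 : cnt1 S (a i) x + 2 / ((d : ℝ) + 2) * (Real.log X - cnt1 S (a i) x) =
        2 / ((d : ℝ) + 2) * Real.log X + (d : ℝ) / (d + 2) * cnt1 S (a i) x := by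
      field_simp
      ring
    have e3 : (d : ℝ) / (d + 2) * cnt1 S (a i) x ≤ (d : ℝ) / (d + 2) * Real.log B :=
      mul_le_mul_of_nonneg_left hi (by positivity)
    linarith)
  have hZX : Z ≤ X := by
    have h2 : Real.log B ≤ Real.log X := by
      refine Real.log_le_log hB0 ?_
      rw [hB]
      refine (min_le_right _ _).trans ?_
      calc X ^ (1 / ((d : ℝ) + 3)) ≤ X ^ (1 : ℝ) := by
            refine Real.rpow_le_rpow_of_exponent_le hX ?_
            rw [div_le_one hd3]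
            linarith
        _ = X := Real.rpow_one X
    rw [← Real.log_le_log_iff (by linarith) hX0, hlZ]
    have h3 : (d : ℝ) / (d + 2) * Real.log B ≤ (d : ℝ) / (d + 2) * Real.log X :=
      mul_le_mul_of_nonneg_left h2 (by positivity)
    have h4 : 2 / ((d : ℝ) + 2) * Real.log X + (d : ℝ) / (d + 2) * Real.log X = Real.log X := by
      field_simp
      ring
    linarith
  refine h1.trans ?_
  have h5 : (B * Z) ^ (1 / 2 : ℝ) ≤ (X * A ^ ((d : ℝ) + 1)) ^ (1 / ((d : ℝ) + 2)) := by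
    have h6 : (B * Z) ^ (1 / 2 : ℝ) = (X * B ^ ((d : ℝ) + 1)) ^ (1 / ((d : ℝ) + 2)) := by
      rw [Real.rpow_def_of_pos (by positivity), Real.rpow_def_of_pos (by positivity),
        Real.log_mul hB0.ne' (by linarith), hlZ, Real.log_mul hX0.ne' (by positivity),
        Real.log_rpow hB0]
      congr 1
      field_simp
      ring
    rw [h6]
    refine Real.rpow_le_rpow (by positivity) ?_ (by positivity)
    exact mul_le_mul_of_nonneg_left (Real.rpow_le_rpow hB0.le hBA (by positivity)) hX0.le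
  refine mul_le_mul ?_ h5 (by positivity) (by positivity)
  exact mul_le_mul_of_nonneg_left (Real.rpow_le_rpow (by linarith) hZX hε.le) hD.le

end Pool.Agent.H59.QI
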