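import Pool.Agent.H59.QI.LowerQ

/-!
Many integral points of the projective line minus a point over a number field with small truncated
counting functions.
-/

set_option autoImplicit false

namespace Pool.Agent.H59.QI

open NumberField IsDedekindDomain Finset
open Pool.Agent.TH876.KR (form log_Nv_pos' log_nn m2 localHeight localHeight_eq fv_int_le)
open Pool.Agent.H691R3 Pool.Agent.TH876.Loc
open Pool.Agent.Y730.QP (cnt)
open Pool.Agent.Y812.LK

section
variable {K : Type} [Field K] [NumberField K]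

/-- a vector dual to a given one -/
theorem exists_dual (β : Fin 2 → 𝓞 K) (hβ : ∃ j, β j ≠ 0) : ∃ (D : 𝓞 K) (g : Fin 2 → 𝓞 K),
    D ≠ 0 ∧ β 0 * g 1 - β 1 * g 0 = D ∧ ∀ j k, D ∣ g j * β k := by
  obtain ⟨j0, hj0⟩ := hβ
  obtain ⟨D, hD⟩ : ∃ D, D = β j0 := ⟨_, rfl⟩
  have hD0 : D ≠ 0 := by rw [hD]; exact hj0
  obtain ⟨I, hI⟩ : ∃ I : Ideal (𝓞 K), I = Ideal.span {β 0} ⊔ Ideal.span {β 1} := ⟨_, rfl⟩
  have hβI : ∀ k, β k ∈ I := by
    intro k
    rw [hI]
    fin_cases k
    · exact Ideal.mem_sup_left (Ideal.mem_span_singleton_self _)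
    · exact Ideal.mem_sup_right (Ideal.mem_span_singleton_self _)
  have hDI : D ∈ I := by rw [hD]; exact hβI j0
  obtain ⟨J, hJ⟩ : I ∣ Ideal.span {D} := by
    rw [Ideal.dvd_span_singleton]
    exact hDI
  have hmem : D ∈ I * J := by
    rw [← hJ]
    exact Ideal.mem_span_singleton_self _
  rw [hI, Ideal.sup_mul, Submodule.mem_sup] at hmem
  obtain ⟨y, hy, z, hz, hyz⟩ := hmem
  rw [Ideal.mem_span_singleton_mul] at hy hz
  obtain ⟨r, hr, hr'⟩ := hy
  obtain ⟨s, hs, hs'⟩ := hz
  have hdiv : ∀ t ∈ J, ∀ k, D ∣ t * β k := by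
    intro t ht k
    rw [← Ideal.mem_span_singleton, hJ, mul_comm t]
    exact Ideal.mul_mem_mul (hβI k) ht
  refine ⟨D, ![-s, r], hD0, ?_, ?_⟩
  · show β 0 * r - β 1 * (-s) = D
    rw [← hyz, ← hr', ← hs']
    ring
  · intro j k
    fin_cases j
    · exact hdiv (-s) (J.neg_mem hs) k
    · exact hdiv r hr k

/-- the counting function vanishes -/
theorem cnt1_nonpos (S : Set (Pr K)) {b x : Fin 2 → K}
    (h : ∀ v : Pr K, m2 v b * m2 v x ≤ fv v (form b x)) : cnt1 S b x ≤ 0 := by
  have h1 : ∀ v : Pr K, localHeight v b x ≤ 0 := by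
    intro v
    rw [localHeight_eq]
    have h0 : 0 ≤ m2 v b * m2 v x :=
      mul_nonneg (((fv v).nonneg _).trans (le_max_left _ _))
        (((fv v).nonneg _).trans (le_max_left _ _))
    have h2 : 0 ≤ fv v (form b x) := (fv v).nonneg _
    refine Real.log_nonpos (div_nonneg h0 h2) ?_
    exact div_le_one_of_le₀ (h v) h2
  unfold cnt1 cnt
  have hnp : ∀ (ι : Sort) (f : ι → ℝ), (∀ i, f i ≤ 0) → ∑ᶠ i, f i ≤ 0 := by
    intro ι f hf
    exact finsum_induction (p := fun x : ℝ => x ≤ 0) le_rfl (fun x y hx hy => by linarith) hf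
  have hnp' : ∀ f : Pr K → ℝ, (∀ i, f i ≤ 0) → ∑ᶠ i, f i ≤ 0 := by
    intro f hf
    exact finsum_induction (p := fun x : ℝ => x ≤ 0) le_rfl (fun x y hx hy => by linarith) hf
  refine hnp' _ fun v => hnp _ _ fun _ => Finset.sum_nonpos fun _ _ => ?_
  exact (min_le_left _ _).trans (h1 v)

theorem dvd_fv (v : Pr K) {D y z : 𝓞 K} (h : D ∣ y * z) :
    fv v (y : K) * fv v (z : K) ≤ fv v (D : K) := by
  obtain ⟨t, ht⟩ := h
  rw [← map_mul]
  have e : (y : K) * (z : K) = (D : K) * (t : K) := by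
    have := congrArg (fun w : 𝓞 K => (w : K)) ht
    exact this
  rw [e, map_mul]
  exact mul_le_of_le_one_right ((fv v).nonneg _) (fv_int_le v t)

end

/-- **many integral points** -/
theorem lowerI (K : Type) [Field K] [NumberField K] (S : Set (Pr K)) (q : ℕ)
    (a : Fin q → Fin 2 → K) (ha0 : ∀ i, a i ≠ 0)
    (ha : ∀ i j, i ≠ j → form (a i) (a j) ≠ 0) (i : Fin q) :
    ∃ C₁ : ℝ, 1 ≤ C₁ ∧ ∀ B : ℝ, C₁ ≤ B →
      ∃ G : Finset (Projectivization K (Fin 2 → K)), (∀ P ∈ G, ∃ (x : Fin 2 → K) (hx : x ≠ 0),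
        P = Projectivization.mk K x hx ∧ (∀ l, form (a l) x ≠ 0) ∧
        cnt1 S (a i) x ≤ 0 ∧ ∀ l, cnt1 S (a l) x ≤ Real.log B) ∧
        B / C₁ ≤ (G.card : ℝ) + q := by
  classical
  obtain ⟨d, hdd⟩ : ∃ d, d = Module.finrank ℚ K := ⟨_, rfl⟩
  have hd1 : 1 ≤ d := by rw [hdd]; exact Module.finrank_pos
  have hd0 : (0 : ℝ) < d := by exact_mod_cast hd1
  -- integral coordinates
  have hex : ∀ l, ∃ (c : K) (b : Fin 2 → 𝓞 K), c ≠ 0 ∧ ∀ j, (c • a l) j = (b j : K) := by
    intro l
    obtain ⟨c, hc⟩ := IsLocalization.exist_integer_multiples_of_finite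
      (nonZeroDivisors (𝓞 K)) (a l)
    choose b hb using hc
    refine ⟨((c : 𝓞 K) : K), b, ?_, fun j => ?_⟩
    · exact coe_ne (nonZeroDivisors.coe_ne_zero c)
    · rw [Pi.smul_apply, smul_eq_mul, show ((b j : 𝓞 K) : K) = algebraMap (𝓞 K) K (b j) from rfl,
        hb j, Algebra.smul_def]
  choose c b hc hb using hex
  have hbi : ∃ j, b i j ≠ 0 := by
    by_contra hcon
    push Not at hcon
    apply ha0 i
    have h1 : c i • a i = 0 := by
      funext j
      rw [hb i j, hcon j]
      rfl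
    rcases smul_eq_zero.1 h1 with h2 | h2
    · exact absurd h2 (hc i)
    · exact h2
  obtain ⟨D, g, hD0, hDg, hdvd⟩ := exists_dual (b i) hbi
  obtain ⟨β, hβ⟩ : ∃ β : Fin q → Fin 2 → K, β = fun l => c l • a l := ⟨_, rfl⟩
  have hβb : ∀ l j, β l j = (b l j : K) := by
    intro l j
    rw [hβ]
    exact hb l j
  have hβ0 : ∀ l, β l ≠ 0 := by
    intro l h
    rw [hβ] at h
    rcases smul_eq_zero.1 h with h | h
    · exact hc l h
    · exact ha0 l h
  have hβf : ∀ l x, form (β l) x = c l * form (a l) x := by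
    intro l x
    rw [hβ]
    exact form_smul_left _ _ _
  have hDK := coe_ne hD0
  -- the vectors
  obtain ⟨X, hX⟩ : ∃ X : 𝓞 K → Fin 2 → K, X = fun v j => ((g j + v * D * b i j : 𝓞 K) : K) :=
    ⟨_, rfl⟩
  have hXe : ∀ v j, X v j = (g j : K) + (v : K) * (D : K) * (b i j : K) := by
    intro v j
    rw [hX]
    rfl
  obtain ⟨z1, hz1⟩ : ∃ z1 : Fin q → 𝓞 K, z1 = fun l => b l 0 * g 1 - b l 1 * g 0 := ⟨_, rfl⟩
  obtain ⟨z2, hz2⟩ : ∃ z2 : Fin q → 𝓞 K, z2 = fun l => D * (b l 0 * b i 1 - b l 1 * b i 0) :=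
    ⟨_, rfl⟩
  have hval : ∀ l v, form (β l) (X v) = ((z1 l + v * z2 l : 𝓞 K) : K) := by
    intro l v
    have e : ((z1 l + v * z2 l : 𝓞 K) : K) = ((b l 0 : K) * (g 1 : K) - (b l 1 : K) * (g 0 : K)) +
        (v : K) * ((D : K) * ((b l 0 : K) * (b i 1 : K) - (b l 1 : K) * (b i 0 : K))) := by
      rw [hz1, hz2]
      rfl
    rw [e]
    unfold form
    rw [hβb, hβb, hXe, hXe]
    ring
  have hz1i : z1 i = D := by rw [hz1]; exact hDg
  have hz2i : z2 i = 0 := by
    rw [hz2]
    show D * (b i 0 * b i 1 - b i 1 * b i 0) = 0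
    ring
  have hvali : ∀ v, form (β i) (X v) = (D : K) := by
    intro v
    rw [hval, hz1i, hz2i, mul_zero, add_zero]
  have hX0 : ∀ v, X v ≠ 0 := by
    intro v h
    have h1 := hvali v
    rw [h] at h1
    apply hDK
    rw [← h1]
    unfold form
    simp
  obtain ⟨M, hM⟩ : ∃ M : ℝ, M = 1 + ∑ l, (house (z1 l : K) + house (z2 l : K)) := ⟨_, rfl⟩
  have hMl : ∀ l, house (z1 l : K) + house (z2 l : K) ≤ M := by
    intro l
    have := Finset.single_le_sum (f := fun l : Fin q => house (z1 l : K) + house (z2 l : K))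
      (fun l _ => add_nonneg (house_nonneg _) (house_nonneg _)) (Finset.mem_univ l)
    rw [hM]
    linarith
  have hM1 : 1 ≤ M := by
    have : 0 ≤ ∑ l, (house (z1 l : K) + house (z2 l : K)) :=
      Finset.sum_nonneg fun l _ => add_nonneg (house_nonneg _) (house_nonneg _)
    rw [hM]
    linarith
  have hM0 : 0 < M := by linarith
  have hs0 := hs_nonneg K
  obtain ⟨N, hN⟩ := exists_nat_ge (M * (hs K + 1))
  have hN1 : (1 : ℝ) ≤ N := by nlinarith
  have hN0 : (0 : ℝ) < N := by linarith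
  refine ⟨(2 * N : ℝ) ^ d, one_le_pow₀ (by linarith), fun B hB => ?_⟩
  have hB1 : 1 ≤ B := le_trans (one_le_pow₀ (by linarith)) hB
  have hBp : 0 < B := by linarith
  obtain ⟨L, hL⟩ : ∃ L : ℝ, L = B ^ ((1 : ℝ) / d) := ⟨_, rfl⟩
  have hLp : 0 < L := by rw [hL]; exact Real.rpow_pos_of_pos hBp _
  have hLd : L ^ d = B := by
    rw [hL, ← Real.rpow_natCast, ← Real.rpow_mul hBp.le, one_div_mul_cancel hd0.ne',
      Real.rpow_one]
  have hNL : (N : ℝ) ≤ L := by
    rw [hL]
    calc (N : ℝ) = ((N : ℝ) ^ d) ^ ((1 : ℝ) / d) := by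
          rw [← Real.rpow_natCast, ← Real.rpow_mul hN0.le, mul_one_div_cancel hd0.ne', Real.rpow_one]
      _ ≤ _ := by
          refine Real.rpow_le_rpow (by positivity) (le_trans ?_ hB) (by positivity)
          exact pow_le_pow_left₀ hN0.le (by linarith) _
  have hlog : Real.log B = d * Real.log L := by
    rw [hL, Real.log_rpow hBp]
    field_simp
  have hLN : 1 ≤ L / N := by rw [le_div_iff₀ hN0]; linarith
  obtain ⟨n, hn⟩ : ∃ n : ℕ, n = ⌊L / N⌋₊ := ⟨_, rfl⟩
  have hn1 : 1 ≤ n := by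
    rw [hn]
    exact (Nat.one_le_floor_iff _).2 hLN
  have hnle : (n : ℝ) ≤ L / N := by rw [hn]; exact Nat.floor_le (by positivity)
  have hn1' : (1 : ℝ) ≤ n := by exact_mod_cast hn1
  have hna : L ≤ 2 * N * n := by
    have h1 : L / N < n + 1 := by rw [hn]; exact Nat.lt_floor_add_one _
    rw [div_lt_iff₀ hN0] at h1
    nlinarith
  obtain ⟨T, hT⟩ : ∃ T : ℝ, T = (hs K + 1) * n := ⟨_, rfl⟩
  have hT1 : 1 ≤ T := by rw [hT]; nlinarith
  have hMT : M * T ≤ L := by
    have h1 : (n : ℝ) * N ≤ L := by rwa [le_div_iff₀ hN0] at hnle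
    have h2 : M * ((hs K + 1) * n) = (M * (hs K + 1)) * n := by ring
    rw [hT, h2]
    have h3 := mul_le_mul_of_nonneg_right hN (by linarith : (0 : ℝ) ≤ n)
    linarith
  have hbox : ∀ v ∈ box K n, house (v : K) ≤ T := by
    intro v hv
    obtain ⟨f, hf, rfl⟩ := mem_box K hv
    refine (elt_house K hf).trans ?_
    rw [hT]
    nlinarith
  -- the points
  obtain ⟨φ, hφd⟩ : ∃ φ : 𝓞 K → Projectivization K (Fin 2 → K),
    φ = fun v => Projectivization.mk K (X v) (hX0 v) := ⟨_, rfl⟩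
  have hφ : Function.Injective φ := by
    intro s t hst
    rw [hφd] at hst
    have hst' : Projectivization.mk K (X s) (hX0 s) = Projectivization.mk K (X t) (hX0 t) := hst
    rw [Projectivization.mk_eq_mk_iff'] at hst'
    obtain ⟨e, he⟩ := hst'
    have h1 := congrArg (form (β i)) he
    rw [form_smul_right, hvali, hvali] at h1
    have he1 : e = 1 := mul_right_cancel₀ hDK (by rw [h1, one_mul])
    rw [he1, one_smul] at he
    obtain ⟨j, hj⟩ := hbi
    have h2 := congrFun he j
    rw [hXe, hXe] at h2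
    have h3 : (t : K) * ((D : K) * (b i j : K)) = (s : K) * ((D : K) * (b i j : K)) := by
      linear_combination h2
    have h4 := mul_right_cancel₀ (mul_ne_zero hDK (coe_ne hj)) h3
    exact (RingOfIntegers.coe_injective h4).symm
  obtain ⟨G, hG⟩ : ∃ G : Finset (𝓞 K), G = (box K n).filter fun v => ∀ l, form (a l) (X v) ≠ 0 :=
    ⟨_, rfl⟩
  have hGF : (box K n).card ≤ G.card + q := by
    have hcov : box K n ⊆ G ∪ (Finset.univ : Finset (Fin q)).biUnion
        (fun l => (box K n).filter fun v => form (a l) (X v) = 0) := by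
      intro t ht
      by_cases h : ∀ l, form (a l) (X t) ≠ 0
      · rw [hG]
        exact Finset.mem_union_left _ (Finset.mem_filter.2 ⟨ht, h⟩)
      · push Not at h
        obtain ⟨l, hl⟩ := h
        exact Finset.mem_union_right _ (Finset.mem_biUnion.2
          ⟨l, Finset.mem_univ _, Finset.mem_filter.2 ⟨ht, hl⟩⟩)
    refine (Finset.card_le_card hcov).trans ((Finset.card_union_le _ _).trans ?_)
    refine Nat.add_le_add_left ?_ _
    refine (Finset.card_biUnion_le_card_mul _ _ 1 fun l _ => ?_).trans (le_of_eq ?_)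
    · rw [Finset.card_le_one]
      intro s hs t ht
      have h1 := (Finset.mem_filter.1 hs).2
      have h2 := (Finset.mem_filter.1 ht).2
      have h1' : form (β l) (X s) = 0 := by rw [hβf, h1, mul_zero]
      have h2' : form (β l) (X t) = 0 := by rw [hβf, h2, mul_zero]
      by_cases hli : l = i
      · rw [hli, hvali] at h1'
        exact absurd h1' hDK
      · rw [hval] at h1' h2'
        have e1 : z1 l + s * z2 l = 0 := RingOfIntegers.coe_injective h1'
        have e2 : z1 l + t * z2 l = 0 := RingOfIntegers.coe_injective h2'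
        have hz20 : z2 l ≠ 0 := by
          intro h
          have h5 : form (β l) (β i) = c l * (c i * form (a l) (a i)) := by
            rw [hβf, hβ]
            show c l * form (a l) (c i • a i) = _
            rw [form_smul_right]
          have h6 : (D : K) * form (β l) (β i) = ((z2 l : 𝓞 K) : K) := by
            have e : ((z2 l : 𝓞 K) : K) =
                (D : K) * ((b l 0 : K) * (b i 1 : K) - (b l 1 : K) * (b i 0 : K)) := by
              rw [hz2]
              rfl
            rw [e]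
            unfold form
            rw [hβb, hβb, hβb, hβb]
          rw [h, h5] at h6
          exact mul_ne_zero hDK (mul_ne_zero (hc l) (mul_ne_zero (hc i) (ha l i hli))) h6
        have e3 : (s - t) * z2 l = 0 := by linear_combination e1 - e2
        exact sub_eq_zero.1 ((mul_eq_zero.1 e3).resolve_right hz20)
    · rw [Finset.card_univ, Fintype.card_fin, Nat.mul_one]
  refine ⟨G.image φ, ?_, ?_⟩
  · intro P hP
    rw [Finset.mem_image] at hP
    obtain ⟨v, hv, rfl⟩ := hP
    rw [hG] at hv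
    obtain ⟨hvB, hvl⟩ := Finset.mem_filter.1 hv
    have hxint : ∀ j, ∃ z : 𝓞 K, X v j = z := by
      intro j
      rw [hX]
      exact ⟨_, rfl⟩
    have hvne : ∀ l, z1 l + v * z2 l ≠ 0 := by
      intro l h
      have h1 := hval l v
      rw [h, hβf] at h1
      exact mul_ne_zero (hc l) (hvl l) h1
    refine ⟨X v, hX0 v, by rw [hφd], hvl, ?_, ?_⟩
    · rw [← cnt1_smul S (hc i) (hvl i)]
      have e : c i • a i = β i := by rw [hβ]
      rw [e]
      refine cnt1_nonpos S fun w => ?_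
      rw [hvali]
      have hk : ∀ k j, fv w (β i k) * fv w (X v j) ≤ fv w (D : K) := by
        intro k j
        rw [hβb, hX, mul_comm]
        refine dvd_fv w ?_
        rw [add_mul]
        refine dvd_add (hdvd j k) ⟨v * b i j * b i k, ?_⟩
        ring
      unfold m2
      rcases max_cases (fv w (β i 0)) (fv w (β i 1)) with ⟨h1, -⟩ | ⟨h1, -⟩ <;>
      rcases max_cases (fv w (X v 0)) (fv w (X v 1)) with ⟨h2, -⟩ | ⟨h2, -⟩ <;>
      rw [h1, h2] <;> exact hk _ _
    · intro l
      have hMT1 : 1 ≤ M * T := one_le_mul_of_one_le_of_one_le hM1 hT1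
      rw [← cnt1_smul S (hc l) (hvl l)]
      have e : c l • a l = β l := by rw [hβ]
      rw [e]
      refine (cnt1_le S (fun j => ⟨b l j, hβb l j⟩) hxint (hβ0 l) (hX0 v) (hval l v) (hvne l)
        hMT1 ?_).trans ?_
      · have e : ((z1 l + v * z2 l : 𝓞 K) : K) = (z1 l : K) + (v : K) * (z2 l : K) := rfl
        rw [e]
        refine (house_add_le _ _).trans ?_
        have h1 := (house_mul_le (v : K) (z2 l : K)).trans
          (mul_le_mul_of_nonneg_right (hbox v hvB) (house_nonneg _))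
        have h3 := mul_le_mul_of_nonneg_right (hMl l) (by linarith : (0 : ℝ) ≤ T)
        have h4 : house (z1 l : K) ≤ house (z1 l : K) * T :=
          le_mul_of_one_le_right (house_nonneg _) hT1
        linarith
      · rw [hlog, ← hdd]
        refine mul_le_mul_of_nonneg_left ?_ hd0.le
        exact Real.log_le_log (by linarith) hMT
  · rw [Finset.card_image_of_injective _ hφ]
    have h1 : (((box K n).card : ℕ) : ℝ) ≤ (G.card : ℝ) + q := by exact_mod_cast hGF
    rw [card_box, ← hdd] at h1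
    refine le_trans ?_ h1
    rw [div_le_iff₀ (by positivity), ← hLd]
    push_cast
    calc L ^ d ≤ (2 * N * n) ^ d := pow_le_pow_left₀ hLp.le hna _
      _ = _ := by rw [mul_pow]; ring

end Pool.Agent.H59.QI
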