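import Pool.Agent.H59.QI.LowerQ

/-!
Many points of the projective line over a number field with small truncated counting functions,
one of them much smaller (after helper730, helper812).
-/

set_option autoImplicit false

namespace Pool.Agent.H59.QI

open NumberField IsDedekindDomain Finset
open Pool.Agent.TH876.KR (form log_Nv_pos' log_nn)
open Pool.Agent.H691R3 Pool.Agent.TH876.Loc
open Pool.Agent.Y812.LK

section
variable {K : Type} [Field K] [NumberField K]

theorem house_comb {x y z w : K} {T M : ℝ} (hT : 0 ≤ T) (hx : house x ≤ T) (hy : house y ≤ T)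
    (hM : house z + house w ≤ M) : house (x * z + y * w) ≤ M * T := by
  refine (house_add_le _ _).trans ?_
  have h1 := (house_mul_le x z).trans (mul_le_mul_of_nonneg_right hx (house_nonneg _))
  have h2 := (house_mul_le y w).trans (mul_le_mul_of_nonneg_right hy (house_nonneg _))
  have h3 := mul_le_mul_of_nonneg_right hM hT
  linarith

theorem house_comb1 {x z w : K} {T M : ℝ} (hT : 0 ≤ T) (hx : house x ≤ T)
    (hM : house z + house w ≤ M) : house (x * z) ≤ M * T := by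
  have h1 := (house_mul_le x z).trans (mul_le_mul_of_nonneg_right hx (house_nonneg _))
  have h2 := house_nonneg w
  have h3 := mul_le_mul_of_nonneg_right (by linarith : house z ≤ M) hT
  linarith

variable (K) in
/-- a box of given size -/
theorem box_of {M : ℝ} (hM : 1 ≤ M) {N : ℕ} (hN : M * (hs K + 1) ≤ N) {L : ℝ} (hL : (N : ℝ) ≤ L) :
    ∃ (n : ℕ) (T : ℝ), L ≤ 2 * N * n ∧ M * T ≤ L ∧ 1 ≤ T ∧
      (∀ a ∈ box K n, a ≠ 0 ∧ house (a : K) ≤ T) := by
  have hs0 := hs_nonneg K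
  have hN1 : (1 : ℝ) ≤ N := by nlinarith
  have hN0 : (0 : ℝ) < N := by linarith
  have hL0 : 0 < L := by linarith
  have hLN : 1 ≤ L / N := by rw [le_div_iff₀ hN0]; linarith
  obtain ⟨n, hn⟩ : ∃ n : ℕ, n = ⌊L / N⌋₊ := ⟨_, rfl⟩
  have hn1 : 1 ≤ n := by
    rw [hn]
    exact (Nat.one_le_floor_iff _).2 hLN
  have hnle : (n : ℝ) ≤ L / N := by rw [hn]; exact Nat.floor_le (by positivity)
  have hn1' : (1 : ℝ) ≤ n := by exact_mod_cast hn1
  refine ⟨n, (hs K + 1) * n, ?_, ?_, ?_, ?_⟩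
  · have h1 : L / N < n + 1 := by rw [hn]; exact Nat.lt_floor_add_one _
    rw [div_lt_iff₀ hN0] at h1
    nlinarith
  · have h1 : (n : ℝ) * N ≤ L := by rwa [le_div_iff₀ hN0] at hnle
    have h2 : M * ((hs K + 1) * n) = (M * (hs K + 1)) * n := by ring
    rw [h2]
    have h3 := mul_le_mul_of_nonneg_right hN (by linarith : (0 : ℝ) ≤ n)
    linarith
  · nlinarith
  · intro a ha
    obtain ⟨f, hf, rfl⟩ := mem_box K ha
    refine ⟨elt_ne K fun i => (hf i).1, (elt_house K hf).trans ?_⟩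
    nlinarith

/-- the data of the construction -/
structure Dat (q : ℕ) (a : Fin q → Fin 2 → K) (i : Fin q) (M : ℝ) where
  c : Fin q → K
  b : Fin q → Fin 2 → 𝓞 K
  w : Fin 2 → 𝓞 K
  zw : Fin q → 𝓞 K
  zi : Fin q → 𝓞 K
  hc : ∀ l, c l ≠ 0
  hb : ∀ l j, (c l • a l) j = (b l j : K)
  hw : form (a i) (fun j => (w j : K)) ≠ 0
  hfw : ∀ l, form (c l • a l) (fun j => (w j : K)) = (zw l : K)
  hfi : ∀ l, form (c l • a l) (c i • a i) = (zi l : K)
  hM1 : 1 ≤ M
  hM : ∀ l, house (zw l : K) + house (zi l : K) ≤ M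

theorem exists_dat {q : ℕ} (a : Fin q → Fin 2 → K) (ha0 : ∀ i, a i ≠ 0) (i : Fin q) :
    ∃ M : ℝ, Nonempty (Dat q a i M) := by
  have hex : ∀ l, ∃ (c : K) (b : Fin 2 → 𝓞 K), c ≠ 0 ∧ ∀ j, c * a l j = (b j : K) := by
    intro l
    obtain ⟨c, hc⟩ := IsLocalization.exist_integer_multiples_of_finite
      (nonZeroDivisors (𝓞 K)) (a l)
    choose b hb using hc
    refine ⟨((c : 𝓞 K) : K), b, ?_, fun j => ?_⟩
    · exact coe_ne (nonZeroDivisors.coe_ne_zero c)
    · rw [show ((b j : 𝓞 K) : K) = algebraMap (𝓞 K) K (b j) from rfl, hb j, Algebra.smul_def]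
  choose c b hc hb using hex
  have hβb : ∀ l j, (c l • a l) j = (b l j : K) := by
    intro l j
    rw [Pi.smul_apply, smul_eq_mul]
    exact hb l j
  -- a vector not proportional to `a i`
  obtain ⟨w, hw⟩ : ∃ w : Fin 2 → 𝓞 K, form (a i) (fun j => (w j : K)) ≠ 0 := by
    by_cases h1 : a i 1 = 0
    · have h0 : a i 0 ≠ 0 := by
        intro h0
        apply ha0 i
        funext j
        fin_cases j
        · exact h0
        · exact h1
      refine ⟨![0, 1], ?_⟩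
      unfold form
      simpa using h0
    · refine ⟨![1, 0], ?_⟩
      unfold form
      simpa using h1
  obtain ⟨zw, hzw⟩ : ∃ zw : Fin q → 𝓞 K, zw = fun l => b l 0 * w 1 - b l 1 * w 0 := ⟨_, rfl⟩
  obtain ⟨zi, hzi⟩ : ∃ zi : Fin q → 𝓞 K, zi = fun l => b l 0 * b i 1 - b l 1 * b i 0 := ⟨_, rfl⟩
  have hfw : ∀ l, form (c l • a l) (fun j => (w j : K)) = (zw l : K) := by
    intro l
    rw [hzw]
    unfold form
    rw [hβb, hβb]
    rfl
  have hfi : ∀ l, form (c l • a l) (c i • a i) = (zi l : K) := by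
    intro l
    rw [hzi]
    unfold form
    rw [hβb, hβb, hβb, hβb]
    rfl
  refine ⟨1 + ∑ l, (house (zw l : K) + house (zi l : K)), ⟨⟨c, b, w, zw, zi, hc, hβb, hw, hfw, hfi,
    ?_, ?_⟩⟩⟩
  · have : 0 ≤ ∑ l, (house (zw l : K) + house (zi l : K)) :=
      Finset.sum_nonneg fun l _ => add_nonneg (house_nonneg _) (house_nonneg _)
    linarith
  · intro l
    have := Finset.single_le_sum (f := fun l : Fin q => house (zw l : K) + house (zi l : K))
      (fun l _ => add_nonneg (house_nonneg _) (house_nonneg _)) (Finset.mem_univ l)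
    linarith

variable {q : ℕ} {a : Fin q → Fin 2 → K} {i : Fin q} {M : ℝ}

/-- the vectors -/
def Dat.vec (E : Dat q a i M) (t : K) : Fin 2 → K := t • (fun j => (E.w j : K)) + E.c i • a i

theorem Dat.hw' (E : Dat q a i M) : form (E.c i • a i) (fun j => (E.w j : K)) ≠ 0 := by
  rw [form_smul_left]
  exact mul_ne_zero (E.hc i) E.hw

theorem Dat.vec_ne (E : Dat q a i M) (ha0 : ∀ i, a i ≠ 0) (t : K) : E.vec t ≠ 0 := by
  intro h
  have h1 : form (E.c i • a i) (E.vec t) = 0 := by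
    rw [h]
    unfold form
    simp
  have h2 : form (E.c i • a i) (E.vec t) = t * form (E.c i • a i) (fun j => (E.w j : K)) := by
    unfold Dat.vec
    rw [form_add_right, form_smul_right, form_self, add_zero]
  rw [h2] at h1
  rcases mul_eq_zero.1 h1 with h3 | h3
  · unfold Dat.vec at h
    rw [h3, zero_smul, zero_add] at h
    rcases smul_eq_zero.1 h with h4 | h4
    · exact E.hc i h4
    · exact ha0 i h4
  · exact E.hw' h3

theorem Dat.vec_inj (E : Dat q a i M) {s t e : K} (h : e • E.vec t = E.vec s) : s = t := by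
  have hwi : form (fun j => (E.w j : K)) (E.c i • a i) ≠ 0 := by
    intro h
    apply E.hw'
    have : form (E.c i • a i) (fun j => (E.w j : K)) =
      -form (fun j => (E.w j : K)) (E.c i • a i) := by unfold form; ring
    rw [this, h, neg_zero]
  have h0 := congrArg (form (fun j => (E.w j : K))) h
  have h1 := congrArg (form (E.c i • a i)) h
  unfold Dat.vec at h0 h1
  simp only [form_smul_right _ _ e, form_smul_right _ _ t, form_smul_right _ _ s, form_add_right,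
    form_self, mul_zero, zero_add] at h0
  simp only [form_smul_right _ _ e, form_smul_right _ _ t, form_smul_right _ _ s, form_add_right,
    form_self, add_zero] at h1
  have he1 : e = 1 := mul_right_cancel₀ hwi (by rw [h0, one_mul])
  rw [he1, one_mul] at h1
  exact (mul_right_cancel₀ E.hw' h1).symm

theorem Dat.exc (E : Dat q a i M) (ha : ∀ i j, i ≠ j → form (a i) (a j) ≠ 0) (l : Fin q) {s t : K}
    (h1 : form (a l) (E.vec s) = 0) (h2 : form (a l) (E.vec t) = 0) : s = t := by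
  unfold Dat.vec at h1 h2
  rw [form_add_right, form_smul_right] at h1 h2
  by_contra hst
  have h3 : (s - t) * form (a l) (fun j => (E.w j : K)) = 0 := by linear_combination h1 - h2
  have h4 : form (a l) (fun j => (E.w j : K)) = 0 :=
    (mul_eq_zero.1 h3).resolve_left (sub_ne_zero.2 hst)
  rw [h4, mul_zero, zero_add] at h1
  by_cases hli : l = i
  · rw [hli] at h4
    exact E.hw h4
  · rw [form_smul_right] at h1
    exact mul_ne_zero (E.hc i) (ha l i hli) h1

/-- the counting functions of the constructed points -/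
theorem Dat.cnt (E : Dat q a i M) (ha0 : ∀ i, a i ≠ 0) (S : Set (Pr K)) {u v : 𝓞 K} (hv0 : v ≠ 0)
    {T1 T3 : ℝ} (hT1 : 1 ≤ T1) (hT13 : T1 ≤ T3) (hu : house (u : K) ≤ T1)
    (hv : house (v : K) ≤ T3)
    (hne : ∀ l, form (a l) (E.vec ((u : K) / v)) ≠ 0) :
    ∃ (x : Fin 2 → K) (hx : x ≠ 0), Projectivization.mk K (E.vec ((u : K) / v)) (E.vec_ne ha0 _) =
      Projectivization.mk K x hx ∧ (∀ l, form (a l) x ≠ 0) ∧
      cnt1 S (a i) x ≤ (Module.finrank ℚ K : ℝ) * Real.log (M * T1) ∧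
      ∀ l, cnt1 S (a l) x ≤ (Module.finrank ℚ K : ℝ) * Real.log (M * T3) := by
  have hM1 := E.hM1
  have hv0' := coe_ne hv0
  obtain ⟨W, hW⟩ : ∃ W : Fin 2 → K, W = fun j => (E.w j : K) := ⟨_, rfl⟩
  obtain ⟨x, hx⟩ : ∃ x : Fin 2 → K, x = (u : K) • W + (v : K) • (E.c i • a i) := ⟨_, rfl⟩
  have hxt : x = (v : K) • E.vec ((u : K) / v) := by
    unfold Dat.vec
    rw [hx, smul_add, smul_smul (v : K) ((u : K) / v), mul_div_cancel₀ _ hv0', hW]
  have hx0 : x ≠ 0 := by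
    rw [hxt]
    exact smul_ne_zero hv0' (E.vec_ne ha0 _)
  have hfr : ∀ l, form (a l) x ≠ 0 := by
    intro l
    rw [hxt, form_smul_right]
    exact mul_ne_zero hv0' (hne l)
  have hval : ∀ l, form (E.c l • a l) x = ((u * E.zw l + v * E.zi l : 𝓞 K) : K) := by
    intro l
    rw [hx, form_add_right, form_smul_right _ _ (u : K), form_smul_right _ _ (v : K), hW, E.hfw,
      E.hfi]
    rfl
  have hvne : ∀ l, u * E.zw l + v * E.zi l ≠ 0 := by
    intro l h
    have h1 := hval l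
    rw [h, form_smul_left] at h1
    exact mul_ne_zero (E.hc l) (hfr l) h1
  have hxint : ∀ j, ∃ z : 𝓞 K, x j = z := by
    intro j
    refine ⟨u * E.w j + v * E.b i j, ?_⟩
    rw [hx, hW]
    show (u : K) * (E.w j : K) + (v : K) * (E.c i • a i) j = _
    rw [E.hb]
    rfl
  have hcnt : ∀ l, ∀ Z : ℝ, 1 ≤ Z → house ((u * E.zw l + v * E.zi l : 𝓞 K) : K) ≤ Z →
      cnt1 S (a l) x ≤ (Module.finrank ℚ K : ℝ) * Real.log Z := by
    intro l Z hZ hh
    rw [← cnt1_smul S (E.hc l) (hfr l)]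
    exact cnt1_le S (fun j => ⟨E.b l j, E.hb l j⟩) hxint (smul_ne_zero (E.hc l) (ha0 l)) hx0
      (hval l) (hvne l) hZ hh
  have hT3 : 1 ≤ T3 := hT1.trans hT13
  have hMT3 : 1 ≤ M * T3 := one_le_mul_of_one_le_of_one_le hM1 hT3
  have hMT1 : 1 ≤ M * T1 := one_le_mul_of_one_le_of_one_le hM1 hT1
  refine ⟨x, hx0, ?_, hfr, ?_, ?_⟩
  · rw [Projectivization.mk_eq_mk_iff']
    refine ⟨(v : K)⁻¹, ?_⟩
    rw [hxt, smul_smul, inv_mul_cancel₀ hv0', one_smul]
  · refine hcnt i (M * T1) hMT1 ?_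
    have hzi0 : E.zi i = 0 := by
      apply RingOfIntegers.coe_injective
      show (E.zi i : K) = 0
      rw [← E.hfi, form_self]
    rw [hzi0, mul_zero, add_zero]
    exact house_comb1 (w := (E.zi i : K)) (by linarith) hu (E.hM i)
  · intro l
    exact hcnt l (M * T3) hMT3 (house_comb (by linarith) (hu.trans hT13) hv (E.hM l))

end

/-- **many points**: the truncated counting function relative to one of the points is at most
`log A`, relative to the other ones it is at most `log B`, `A ≤ B` -/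
theorem lowerJ (K : Type) [Field K] [NumberField K] (S : Set (Pr K)) (q : ℕ)
    (a : Fin q → Fin 2 → K) (ha0 : ∀ i, a i ≠ 0)
    (ha : ∀ i j, i ≠ j → form (a i) (a j) ≠ 0) (i : Fin q) :
    ∃ c₀ : ℝ, 1 ≤ c₀ ∧ ∀ δ : ℝ, 0 < δ → δ ≤ 1 → ∃ B₀ : ℝ, 1 ≤ B₀ ∧
      ∀ A B : ℝ, c₀ ≤ A → A ≤ B → B₀ ≤ B →
      ∃ G : Finset (Projectivization K (Fin 2 → K)), (∀ P ∈ G, ∃ (x : Fin 2 → K) (hx : x ≠ 0),
        P = Projectivization.mk K x hx ∧ (∀ l, form (a l) x ≠ 0) ∧
        cnt1 S (a i) x ≤ Real.log A ∧ ∀ l, cnt1 S (a l) x ≤ Real.log B) ∧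
        B ^ (-δ) * (A * B) ≤ (G.card : ℝ) := by
  classical
  obtain ⟨d, hdd⟩ : ∃ d, d = Module.finrank ℚ K := ⟨_, rfl⟩
  have hd1 : 1 ≤ d := by rw [hdd]; exact Module.finrank_pos
  have hd0 : (0 : ℝ) < d := by exact_mod_cast hd1
  obtain ⟨M, ⟨E⟩⟩ := exists_dat a ha0 i
  have hM1 := E.hM1
  have hs0 := hs_nonneg K
  obtain ⟨N, hN⟩ := exists_nat_ge (M * (hs K + 1))
  have hN1 : (1 : ℝ) ≤ N := by nlinarith
  have hN0 : (0 : ℝ) < N := by linarith
  refine ⟨(N : ℝ) ^ d, one_le_pow₀ hN1, fun δ hδ hδ1 => ?_⟩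
  obtain ⟨η, hη⟩ : ∃ η : ℝ, η = d * δ / 2 := ⟨_, rfl⟩
  have hη0 : 0 < η := by rw [hη]; positivity
  obtain ⟨C, hC, hD⟩ := D_bound K η hη0
  obtain ⟨A0, hA0⟩ : ∃ A0 : ℝ, A0 = (2 * N : ℝ) ^ (2 * d) * C := ⟨_, rfl⟩
  have hA00 : 0 < A0 := by rw [hA0]; positivity
  have hbase : 0 < A0 * (q + 1) + 1 := by positivity
  refine ⟨max 1 ((A0 * (q + 1) + 1) ^ (2 / δ)), le_max_left _ _, fun A B hA hAB hB => ?_⟩
  have hB3 : (A0 * (q + 1) + 1) ^ (2 / δ) ≤ B := (le_max_right _ _).trans hB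
  have hA1 : 1 ≤ A := le_trans (one_le_pow₀ hN1) hA
  have hAp : 0 < A := by linarith
  have hB1' : 1 ≤ B := hA1.trans hAB
  have hBp : 0 < B := by linarith
  -- the two sizes
  obtain ⟨L1, hL1⟩ : ∃ L1 : ℝ, L1 = A ^ ((1 : ℝ) / d) := ⟨_, rfl⟩
  obtain ⟨L2, hL2⟩ : ∃ L2 : ℝ, L2 = B ^ ((1 : ℝ) / d) := ⟨_, rfl⟩
  have hL1p : 0 < L1 := by rw [hL1]; exact Real.rpow_pos_of_pos hAp _
  have hL2p : 0 < L2 := by rw [hL2]; exact Real.rpow_pos_of_pos hBp _
  have hL12 : L1 ≤ L2 := by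
    rw [hL1, hL2]
    exact Real.rpow_le_rpow hAp.le hAB (by positivity)
  have hNL1 : (N : ℝ) ≤ L1 := by
    rw [hL1]
    calc (N : ℝ) = ((N : ℝ) ^ d) ^ ((1 : ℝ) / d) := by
          rw [← Real.rpow_natCast, ← Real.rpow_mul hN0.le, mul_one_div_cancel hd0.ne', Real.rpow_one]
      _ ≤ _ := Real.rpow_le_rpow (by positivity) hA (by positivity)
  have hNL2 : (N : ℝ) ≤ L2 := hNL1.trans hL12
  have hlog1 : Real.log A = d * Real.log L1 := by
    rw [hL1, Real.log_rpow hAp]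
    field_simp
  have hlog2 : Real.log B = d * Real.log L2 := by
    rw [hL2, Real.log_rpow hBp]
    field_simp
  -- the boxes
  obtain ⟨n1, T1, hn1a, hn1b, hn1c, hB1⟩ := box_of K hM1 hN hNL1
  obtain ⟨n2, T2, hn2a, hn2b, hn2c, hB2⟩ := box_of K hM1 hN hNL2
  obtain ⟨B1, hB1d⟩ : ∃ B1, B1 = box K n1 := ⟨_, rfl⟩
  obtain ⟨B2, hB2d⟩ : ∃ B2, B2 = box K n2 := ⟨_, rfl⟩
  rw [← hB1d] at hB1
  rw [← hB2d] at hB2
  have hT1L : T1 ≤ L1 := by nlinarith
  have hT2L : T2 ≤ L2 := by nlinarith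
  obtain ⟨T3, hT3⟩ : ∃ T3 : ℝ, T3 = max T1 T2 := ⟨_, rfl⟩
  have hT3a : T1 ≤ T3 := by rw [hT3]; exact le_max_left _ _
  have hT3b : T2 ≤ T3 := by rw [hT3]; exact le_max_right _ _
  have hT3L : T3 ≤ L2 := by rw [hT3]; exact max_le (hT1L.trans hL12) hT2L
  have hMT3 : M * T3 ≤ L2 := by
    rw [hT3]
    rcases max_cases T1 T2 with ⟨h, -⟩ | ⟨h, -⟩ <;> rw [h]
    · exact hn1b.trans hL12
    · exact hn2b
  have hT31 : 1 ≤ T3 := hn1c.trans hT3a
  obtain ⟨Dn, hDn⟩ : ∃ Dn : ℕ, Dn = ⌊C * T3 ^ η⌋₊ := ⟨_, rfl⟩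
  have hDn' : (Dn : ℝ) ≤ C * B ^ (δ / 2) := by
    rw [hDn]
    refine (Nat.floor_le (by positivity)).trans ?_
    refine mul_le_mul_of_nonneg_left ?_ hC.le
    calc T3 ^ η ≤ L2 ^ η := Real.rpow_le_rpow (by linarith) hT3L hη0.le
      _ = B ^ (δ / 2) := by
          rw [hL2, ← Real.rpow_mul hBp.le, hη]
          congr 1
          field_simp
  have hqc := quot_count2 B1 B2 (fun a ha => (hB1 a ha).1) (fun a ha => (hB2 a ha).1) Dn
    (fun u hu v hv => by
    rw [hDn]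
    refine Nat.le_floor ?_
    refine le_trans ?_ (hD T3 hT31 (B1 ∪ B2) (by
      intro z hz
      rcases Finset.mem_union.1 hz with hz | hz
      · exact ⟨(hB1 z hz).1, (hB1 z hz).2.trans hT3a⟩
      · exact ⟨(hB2 z hz).1, (hB2 z hz).2.trans hT3b⟩) u (Finset.mem_union_left _ hu) v
      (Finset.mem_union_right _ hv))
    have : (B1.filter fun c => c ∣ u * v).card ≤ ((B1 ∪ B2).filter fun c => c ∣ u * v).card :=
      Finset.card_le_card (Finset.filter_subset_filter _ Finset.subset_union_left)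
    exact_mod_cast this)
  obtain ⟨F, hF⟩ : ∃ F : Finset K, F = (B1 ×ˢ B2).image fun p => (p.1 : K) / (p.2 : K) := ⟨_, rfl⟩
  rw [← hF] at hqc
  -- the points
  obtain ⟨φ, hφd⟩ : ∃ φ : K → Projectivization K (Fin 2 → K),
    φ = fun t => Projectivization.mk K (E.vec t) (E.vec_ne ha0 t) := ⟨_, rfl⟩
  have hφ : Function.Injective φ := by
    intro s t hst
    rw [hφd] at hst
    have hst' : Projectivization.mk K (E.vec s) (E.vec_ne ha0 s) =
      Projectivization.mk K (E.vec t) (E.vec_ne ha0 t) := hst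
    rw [Projectivization.mk_eq_mk_iff'] at hst'
    obtain ⟨e, he⟩ := hst'
    exact E.vec_inj he
  -- the exceptional ratios
  obtain ⟨G, hG⟩ : ∃ G : Finset K, G = F.filter fun t => ∀ l, form (a l) (E.vec t) ≠ 0 :=
    ⟨_, rfl⟩
  have hGF : F.card ≤ G.card + q := by
    have hcov : F ⊆ G ∪ (Finset.univ : Finset (Fin q)).biUnion
        (fun l => F.filter fun t => form (a l) (E.vec t) = 0) := by
      intro t ht
      by_cases h : ∀ l, form (a l) (E.vec t) ≠ 0
      · rw [hG]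
        exact Finset.mem_union_left _ (Finset.mem_filter.2 ⟨ht, h⟩)
      · push Not at h
        obtain ⟨l, hl⟩ := h
        exact Finset.mem_union_right _ (Finset.mem_biUnion.2
          ⟨l, Finset.mem_univ _, Finset.mem_filter.2 ⟨ht, hl⟩⟩)
    refine (Finset.card_le_card hcov).trans ((Finset.card_union_le _ _).trans ?_)
    refine Nat.add_le_add_left ?_ _
    refine (Finset.card_biUnion_le_card_mul _ _ 1 fun l _ => ?_).trans (le_of_eq ?_)
    · rw [Finset.card_le_one]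
      intro s hs t ht
      exact E.exc ha l (Finset.mem_filter.1 hs).2 (Finset.mem_filter.1 ht).2
    · rw [Finset.card_univ, Fintype.card_fin, Nat.mul_one]
  refine ⟨G.image φ, ?_, ?_⟩
  · intro P hP
    rw [Finset.mem_image] at hP
    obtain ⟨t, ht, rfl⟩ := hP
    rw [hG] at ht
    obtain ⟨htF, hti⟩ := Finset.mem_filter.1 ht
    rw [hF] at htF
    obtain ⟨p, hp, rfl⟩ := Finset.mem_image.1 htF
    obtain ⟨hp1, hp2⟩ := Finset.mem_product.1 hp
    obtain ⟨x, hx0, hx1, hx2, hx3, hx4⟩ := E.cnt ha0 S (hB2 _ hp2).1 hn1c hT3a (hB1 _ hp1).2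
      ((hB2 _ hp2).2.trans hT3b) hti
    rw [← hdd] at hx3 hx4
    refine ⟨x, hx0, ?_, hx2, hx3.trans ?_, fun l => (hx4 l).trans ?_⟩
    · rw [hφd]
      exact hx1
    · rw [hlog1]
      refine mul_le_mul_of_nonneg_left ?_ hd0.le
      exact Real.log_le_log (by positivity) hn1b
    · rw [hlog2]
      refine mul_le_mul_of_nonneg_left ?_ hd0.le
      exact Real.log_le_log (by positivity) hMT3
  -- numbers
  rw [Finset.card_image_of_injective _ hφ]
  have hFG : (F.card : ℝ) ≤ (G.card : ℝ) + q := by exact_mod_cast hGF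
  rw [hB1d, hB2d, card_box, card_box, ← hdd] at hqc
  have h1 : ((n1 ^ d * n2 ^ d : ℕ) : ℝ) ≤ ((F.card * Dn : ℕ) : ℝ) := by exact_mod_cast hqc
  push_cast at h1
  have hYL : A * B = L1 ^ d * L2 ^ d := by
    have e1 : L1 ^ d = A := by
      rw [hL1, ← Real.rpow_natCast, ← Real.rpow_mul hAp.le, one_div_mul_cancel hd0.ne',
        Real.rpow_one]
    have e2 : L2 ^ d = B := by
      rw [hL2, ← Real.rpow_natCast, ← Real.rpow_mul hBp.le, one_div_mul_cancel hd0.ne',
        Real.rpow_one]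
    rw [e1, e2]
  have h2 : A * B ≤ (2 * N) ^ (2 * d) * ((n1 : ℝ) ^ d * (n2 : ℝ) ^ d) := by
    rw [hYL]
    calc L1 ^ d * L2 ^ d ≤ (2 * N * n1) ^ d * (2 * N * n2) ^ d :=
          mul_le_mul (pow_le_pow_left₀ hL1p.le hn1a _) (pow_le_pow_left₀ hL2p.le hn2a _)
            (by positivity) (by positivity)
      _ = _ := by
          rw [mul_pow, mul_pow _ (n2 : ℝ), two_mul d, pow_add]
          ring
  have h3 : A * B ≤ F.card * (A0 * B ^ (δ / 2)) := by
    calc A * B ≤ (2 * N) ^ (2 * d) * ((n1 : ℝ) ^ d * (n2 : ℝ) ^ d) := h2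
      _ ≤ (2 * N) ^ (2 * d) * (F.card * (C * B ^ (δ / 2))) := by
          refine mul_le_mul_of_nonneg_left ?_ (by positivity)
          exact h1.trans (mul_le_mul_of_nonneg_left hDn' (Nat.cast_nonneg _))
      _ = _ := by rw [hA0]; ring
  have h4 : A0 * (q + 1) + 1 ≤ B ^ (δ / 2) := by
    have h6 := Real.rpow_le_rpow (by positivity) hB3 (by positivity : (0 : ℝ) ≤ δ / 2)
    rw [← Real.rpow_mul hbase.le] at h6
    have h7 : 2 / δ * (δ / 2) = 1 := by field_simp
    rw [h7, Real.rpow_one] at h6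
    exact h6
  obtain ⟨Z, hZ⟩ : ∃ Z : ℝ, Z = B ^ (-δ) * (A * B) := ⟨_, rfl⟩
  rw [← hZ]
  have hXd : 0 < B ^ (δ / 2) := Real.rpow_pos_of_pos hBp _
  have hYZ : A * B = Z * (B ^ (δ / 2) * B ^ (δ / 2)) := by
    rw [hZ, ← Real.rpow_add hBp]
    have e : δ / 2 + δ / 2 = δ := by ring
    rw [e]
    have e2 : B ^ (-δ) * (A * B) * B ^ δ = (B ^ (-δ) * B ^ δ) * (A * B) := by ring
    rw [e2, ← Real.rpow_add hBp, neg_add_cancel, Real.rpow_zero, one_mul]
  have hZ1 : 1 ≤ Z := by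
    have hYX : B ^ δ ≤ A * B := by
      calc B ^ δ ≤ B ^ (1 : ℝ) := Real.rpow_le_rpow_of_exponent_le hB1' hδ1
        _ = B := Real.rpow_one B
        _ ≤ A * B := le_mul_of_one_le_left hBp.le hA1
    rw [hZ]
    calc (1 : ℝ) = B ^ (-δ) * B ^ δ := by
          rw [← Real.rpow_add hBp, neg_add_cancel, Real.rpow_zero]
      _ ≤ _ := mul_le_mul_of_nonneg_left hYX (by positivity)
  have h9 : Z * B ^ (δ / 2) ≤ F.card * A0 := by
    have h10 : (Z * B ^ (δ / 2)) * B ^ (δ / 2) ≤ (F.card * A0) * B ^ (δ / 2) := by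
      rw [hYZ] at h3
      linarith
    exact le_of_mul_le_mul_right h10 hXd
  by_contra hcon
  push Not at hcon
  have h10 : Z * (A0 * (q + 1) + 1) ≤ F.card * A0 :=
    (mul_le_mul_of_nonneg_left h4 (by linarith)).trans h9
  have h11 : (F.card : ℝ) * A0 ≤ (Z + q) * A0 :=
    mul_le_mul_of_nonneg_right (by linarith) hA00.le
  have h12 : (q : ℝ) * A0 ≤ Z * (q * A0) := by
    have : 0 ≤ (q : ℝ) * A0 := by positivity
    nlinarith
  nlinarith

end Pool.Agent.H59.QI
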