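import Pool.Agent.H59.QI.Line

/-!
Many points of the projective line over a number field with small truncated counting functions,
one of them much smaller (after helper730, helper812).
-/

set_option autoImplicit false

namespace Pool.Agent.H59.QI

open NumberField IsDedekindDomain Finset
open Pool.Agent.TH876.KR (form localHeight localHeight_nonneg localHeight_eq localHeight_pos_iff
  log_Nv_pos' m2 form_le good_finite Good m2_of_good log_nn fv_int_le)
open Pool.Agent.H691R3 Pool.Agent.TH876.Loc
open Pool.Agent.Y730.QP (cnt term_nonneg supp_finite localHeight_smul)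
open Pool.Agent.Y812.LK

section
variable {K : Type} [Field K] [NumberField K]

open scoped Pointwise in
open Classical in
/-- the number of quotients of elements of two sets -/
theorem quot_count2 (B B' : Finset (𝓞 K)) (h0 : ∀ a ∈ B, a ≠ 0) (h0' : ∀ a ∈ B', a ≠ 0) (D : ℕ)
    (hD : ∀ a ∈ B, ∀ b ∈ B', (B.filter fun c => c ∣ a * b).card ≤ D) :
    B.card * B'.card ≤ ((B ×ˢ B').image fun p => (p.1 : K) / (p.2 : K)).card * D := by
  have hinj : Function.Injective fun a : 𝓞 K => (a : K) := fun a b h =>
    RingOfIntegers.coe_injective h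
  have hinj' : Function.Injective fun a : 𝓞 K => (a : K)⁻¹ := fun a b h =>
    RingOfIntegers.coe_injective (inv_injective h)
  set s : Finset K := B.image (fun a : 𝓞 K => (a : K)) with hs
  set t : Finset K := B'.image (fun a : 𝓞 K => (a : K)⁻¹) with ht
  have hsc : s.card = B.card := Finset.card_image_of_injective _ hinj
  have htc : t.card = B'.card := Finset.card_image_of_injective _ hinj'
  have hst : s * t ⊆ (B ×ˢ B').image fun p => (p.1 : K) / (p.2 : K) := by
    intro x hx
    obtain ⟨y, hy, z, hz, rfl⟩ := Finset.mem_mul.1 hx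
    obtain ⟨a, ha, rfl⟩ := Finset.mem_image.1 hy
    obtain ⟨b, hb, rfl⟩ := Finset.mem_image.1 hz
    exact Finset.mem_image.2 ⟨(a, b), Finset.mem_product.2 ⟨ha, hb⟩, div_eq_mul_inv _ _⟩
  have hE : Finset.mulEnergy s t ≤ D * (s ×ˢ t).card := by
    unfold Finset.mulEnergy
    refine Finset.card_le_mul_card_image_of_maps_to (f := fun x => (x.1.1, x.2.2)) ?_ D ?_
    · intro x hx
      have hx' := Finset.mem_filter.1 hx
      have h1 := Finset.mem_product.1 hx'.1
      exact Finset.mem_product.2 ⟨(Finset.mem_product.1 h1.1).1, (Finset.mem_product.1 h1.2).2⟩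
    · rintro ⟨y, z⟩ hyz
      obtain ⟨hy, hz⟩ := Finset.mem_product.1 hyz
      obtain ⟨a, ha, rfl⟩ := Finset.mem_image.1 hy
      obtain ⟨b, hb, rfl⟩ := Finset.mem_image.1 hz
      refine le_trans ?_ (hD a ha b hb)
      have key : ∀ x ∈ ((s ×ˢ s) ×ˢ t ×ˢ t).filter (fun x => x.1.1 * x.2.1 = x.1.2 * x.2.2),
          (x.1.1, x.2.2) = ((a : K), (b : K)⁻¹) →
          ∃ c ∈ B, ∃ d ∈ B', x.1.2 = (c : K) ∧ x.2.1 = (d : K)⁻¹ ∧ a * b = c * d := by
        intro x hx he
        have hx' := Finset.mem_filter.1 hx
        have h1 := Finset.mem_product.1 hx'.1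
        obtain ⟨c, hc, hc'⟩ := Finset.mem_image.1 (Finset.mem_product.1 h1.1).2
        obtain ⟨d, hd, hd'⟩ := Finset.mem_image.1 (Finset.mem_product.1 h1.2).1
        refine ⟨c, hc, d, hd, hc'.symm, hd'.symm, ?_⟩
        have e1 : x.1.1 = (a : K) := congrArg Prod.fst he
        have e2 : x.2.2 = (b : K)⁻¹ := congrArg Prod.snd he
        have e3 := hx'.2
        rw [e1, e2, ← hc', ← hd'] at e3
        have nb := coe_ne (h0' b hb)
        have nd := coe_ne (h0' d hd)
        have e4 : (a : K) * b = c * d := by
          field_simp at e3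
          linear_combination e3
        apply RingOfIntegers.coe_injective
        exact e4
      calc _ ≤ ((B.filter fun c => c ∣ a * b).image (fun a : 𝓞 K => (a : K))).card := by
            refine Finset.card_le_card_of_injOn (fun x => x.1.2) ?_ ?_
            · intro x hx
              have hx' := Finset.mem_filter.1 hx
              obtain ⟨c, hc, d, hd, e1, e2, e3⟩ := key x hx'.1 hx'.2
              show x.1.2 ∈ _
              rw [e1]
              exact Finset.mem_coe.2 (Finset.mem_image.2 ⟨c, Finset.mem_filter.2 ⟨hc, ⟨d, e3⟩⟩, rfl⟩)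
            · intro x hx y hy hxy
              have hx' := Finset.mem_filter.1 hx
              have hy' := Finset.mem_filter.1 hy
              obtain ⟨c, hc, d, hd, e1, e2, e3⟩ := key x hx'.1 hx'.2
              obtain ⟨c', hc', d', hd', e1', e2', e3'⟩ := key y hy'.1 hy'.2
              have hxy' : x.1.2 = y.1.2 := hxy
              have f1 : x.1.1 = y.1.1 := by
                rw [show x.1.1 = (a : K) from congrArg Prod.fst hx'.2,
                  show y.1.1 = (a : K) from congrArg Prod.fst hy'.2]
              have f2 : x.2.2 = y.2.2 := by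
                rw [show x.2.2 = (b : K)⁻¹ from congrArg Prod.snd hx'.2,
                  show y.2.2 = (b : K)⁻¹ from congrArg Prod.snd hy'.2]
              have f3 : c = c' := by
                apply RingOfIntegers.coe_injective
                show (c : K) = c'
                rw [← e1, ← e1', hxy']
              have f4 : d = d' := by
                subst f3
                exact mul_left_cancel₀ (h0 c hc) (e3.symm.trans e3')
              have f5 : x.2.1 = y.2.1 := by rw [e2, e2', f4]
              exact Prod.ext (Prod.ext f1 hxy') (Prod.ext f5 f2)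
        _ ≤ _ := Finset.card_image_le
  have h1 := Finset.le_card_mul_mul_mulEnergy s t
  rw [hsc, htc] at h1
  rw [Finset.card_product, hsc, htc] at hE
  rcases Nat.eq_zero_or_pos B.card with hB | hB
  · rw [hB, Nat.zero_mul]
    exact Nat.zero_le _
  rcases Nat.eq_zero_or_pos B'.card with hB' | hB'
  · rw [hB', Nat.mul_zero]
    exact Nat.zero_le _
  have h2 : (B.card * B'.card) * (B.card * B'.card) ≤
      (((B ×ˢ B').image fun p => (p.1 : K) / (p.2 : K)).card * D) * (B.card * B'.card) := by
    calc (B.card * B'.card) * (B.card * B'.card) = B.card ^ 2 * B'.card ^ 2 := by ring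
      _ ≤ _ := h1
      _ ≤ ((B ×ˢ B').image fun p => (p.1 : K) / (p.2 : K)).card * (D * (B.card * B'.card)) :=
          Nat.mul_le_mul (Finset.card_le_card hst) hE
      _ = _ := by ring
  exact Nat.le_of_mul_le_mul_right h2 (Nat.mul_pos hB hB')

/-- scaling does not change the counting function -/
theorem cnt1_smul (S : Set (Pr K)) {c : K} (hc : c ≠ 0) {a x : Fin 2 → K} (h : form a x ≠ 0) :
    cnt1 S (c • a) x = cnt1 S a x := by
  unfold cnt1 cnt
  refine finsum_congr fun v => finsum_congr fun _ => Finset.sum_congr rfl fun _ _ => ?_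
  show min (localHeight v (c • a) x) (Real.log (Nv v)) = min (localHeight v a x) (Real.log (Nv v))
  rw [localHeight_smul v hc h]

/-- the counting function of an integral point with respect to an integral point -/
theorem cnt1_le (S : Set (Pr K)) {b x : Fin 2 → K} (hb : ∀ j, ∃ z : 𝓞 K, b j = z)
    (hx : ∀ j, ∃ z : 𝓞 K, x j = z) (hb0 : b ≠ 0) (hx0 : x ≠ 0) {z : 𝓞 K} (hz : form b x = z)
    (hz0 : z ≠ 0) {Z : ℝ} (hZ : 1 ≤ Z) (hh : house (z : K) ≤ Z) :
    cnt1 S b x ≤ (Module.finrank ℚ K : ℝ) * Real.log Z := by
  classical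
  have hne : form b x ≠ 0 := by rw [hz]; exact coe_ne hz0
  have hfin := supp_finite (a := fun _ : Fin 1 => b) (fun _ => hb0) hx0 (fun _ => hne)
  obtain ⟨V, hV⟩ : ∃ V : Finset (Pr K), V = hfin.toFinset := ⟨_, rfl⟩
  have hmem : ∀ v, v ∉ V → localHeight v b x = 0 := by
    intro v hv
    by_contra hcon
    apply hv
    rw [hV, Set.Finite.mem_toFinset]
    exact ⟨0, hcon⟩
  have e2 : cnt1 S b x = ∑ v ∈ V,
      if v ∉ S then ∑ _i : Fin 1, min (localHeight v b x) (Real.log (Nv v)) else 0 := by
    unfold cnt1 cnt
    rw [finsum_eq_sum_of_support_subset (s := V)]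
    · refine Finset.sum_congr rfl fun v _ => ?_
      rw [finsum_eq_if]
    · intro v hv
      by_contra hcon
      have hcon' : v ∉ V := hcon
      rw [Function.mem_support, finsum_eq_if] at hv
      apply hv
      split_ifs with h
      · rfl
      · refine Finset.sum_eq_zero fun i _ => ?_
        rw [hmem v hcon']
        exact min_eq_left (log_Nv_pos' v).le
  have hnn : nn (V.filter fun v => fv v (z : K) ≠ 1) ≤ Z ^ (Module.finrank ℚ K) :=
    nn_le hz0 hZ hh _ fun v hv => (Finset.mem_filter.1 hv).2
  have h1 : ∑ v ∈ V, min (localHeight v b x) (Real.log (Nv v)) ≤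
      ∑ v ∈ V.filter (fun v => fv v (z : K) ≠ 1), Real.log (Nv v) := by
    rw [Finset.sum_filter]
    refine Finset.sum_le_sum fun v _ => ?_
    split_ifs with h
    · exact min_le_right _ _
    · push Not at h
      refine (min_le_left _ _).trans ?_
      rw [localHeight_eq, hz, h, div_one]
      have h2 : m2 v b ≤ 1 := by
        refine max_le ?_ ?_
        · obtain ⟨w, hw⟩ := hb 0
          rw [hw]
          exact fv_int_le v _
        · obtain ⟨w, hw⟩ := hb 1
          rw [hw]
          exact fv_int_le v _
      have h3 : m2 v x ≤ 1 := by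
        refine max_le ?_ ?_
        · obtain ⟨w, hw⟩ := hx 0
          rw [hw]
          exact fv_int_le v _
        · obtain ⟨w, hw⟩ := hx 1
          rw [hw]
          exact fv_int_le v _
      refine Real.log_nonpos (mul_nonneg ?_ ?_) ?_
      · exact ((fv v).nonneg _).trans (le_max_left _ _)
      · exact ((fv v).nonneg _).trans (le_max_left _ _)
      · exact mul_le_one₀ h2 (((fv v).nonneg _).trans (le_max_left _ _)) h3
  rw [e2]
  calc _ ≤ ∑ v ∈ V, min (localHeight v b x) (Real.log (Nv v)) := by
        refine Finset.sum_le_sum fun v _ => ?_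
        split_ifs
        · exact term_nonneg v hne
        · rw [Finset.sum_const, Finset.card_univ, Fintype.card_fin, one_smul]
    _ ≤ _ := h1
    _ ≤ _ := by
        rw [← log_nn, ← Real.log_pow]
        exact Real.log_le_log (nn_pos _) hnn

theorem form_smul_right (a x : Fin 2 → K) (c : K) : form a (c • x) = c * form a x := by
  unfold form
  rw [Pi.smul_apply, Pi.smul_apply, smul_eq_mul, smul_eq_mul]
  ring

theorem form_smul_left (a x : Fin 2 → K) (c : K) : form (c • a) x = c * form a x := by
  unfold form
  rw [Pi.smul_apply, Pi.smul_apply, smul_eq_mul, smul_eq_mul]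
  ring

theorem form_add_right (a x y : Fin 2 → K) : form a (x + y) = form a x + form a y := by
  unfold form
  rw [Pi.add_apply, Pi.add_apply]
  ring

theorem form_self (a : Fin 2 → K) : form a a = 0 := by
  unfold form; ring

end

end Pool.Agent.H59.QI
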