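import Pool.Agent.H59.QI.LowerJ
import Pool.Agent.H59.QI.LowerI

/-!
Both bounds for the number of points of the projective line over a number field, of all heights,
with small truncated counting functions, one of them much smaller.
-/

set_option autoImplicit false

namespace Pool.Agent.H59.QI

open NumberField IsDedekindDomain Finset
open Pool.Agent.TH876.KR (form)
open Pool.Agent.H691R3 Pool.Agent.TH876.Loc
open Pool.Agent.Y730.QP (cnt term_nonneg)

section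
variable {K : Type} [Field K] [NumberField K]

/-- the points with `N(a i, x) ≤ log A` and `N(a l, x) ≤ log B` for `l ≠ i` -/
def PJ (S : Set (Pr K)) {q : ℕ} (a : Fin q → Fin 2 → K) (i : Fin q) (A B : ℝ) :
    Set (Projectivization K (Fin 2 → K)) :=
  {P | ∃ (x : Fin 2 → K) (hx : x ≠ 0), P = Projectivization.mk K x hx ∧
    (∀ l, form (a l) x ≠ 0) ∧ cnt1 S (a i) x ≤ Real.log A ∧
    ∀ l, l ≠ i → cnt1 S (a l) x ≤ Real.log B}

/-- the points with `∑ l, N(a l, x) ≤ log X` and `N(a i, x) ≤ log A` -/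
def PT (S : Set (Pr K)) {q : ℕ} (a : Fin q → Fin 2 → K) (i : Fin q) (X A : ℝ) :
    Set (Projectivization K (Fin 2 → K)) :=
  {P | ∃ (x : Fin 2 → K) (hx : x ≠ 0), P = Projectivization.mk K x hx ∧
    (∀ l, form (a l) x ≠ 0) ∧ ∑ l, cnt1 S (a l) x ≤ Real.log X ∧ cnt1 S (a i) x ≤ Real.log A}

theorem cnt1_nonneg (S : Set (Pr K)) {a x : Fin 2 → K} (h : form a x ≠ 0) : 0 ≤ cnt1 S a x := by
  unfold cnt1 cnt
  refine finsum_nonneg fun v => finsum_nonneg fun _ => Finset.sum_nonneg fun _ _ => ?_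
  exact term_nonneg v h

theorem fin_of_bound {α : Type*} {s : Set α} {c : ℝ}
    (h : ∀ G : Finset α, (G : Set α) ⊆ s → (G.card : ℝ) ≤ c) : s.Finite ∧ (s.ncard : ℝ) ≤ c := by
  have hfin : s.Finite := by
    by_contra hinf
    obtain ⟨G, hGV, hGc⟩ := Set.Infinite.exists_subset_card_eq hinf (⌊c⌋₊ + 1)
    have h1 := h G hGV
    have h2 := Nat.lt_floor_add_one c
    rw [hGc] at h1
    push_cast at h1
    linarith
  refine ⟨hfin, ?_⟩
  rw [Set.ncard_eq_toFinset_card _ hfin]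
  exact h hfin.toFinset (by rw [Set.Finite.coe_toFinset])

end

theorem PJ_upper (K : Type) [Field K] [NumberField K] (S : Set (Pr K)) (hS : S.Finite)
    (q : ℕ) (hq : 3 ≤ q) (a : Fin q → Fin 2 → K) (ha0 : ∀ i, a i ≠ 0)
    (ha : ∀ i j, i ≠ j → form (a i) (a j) ≠ 0) (i : Fin q) (ε : ℝ) (hε : 0 < ε) :
    ∃ D : ℝ, 0 < D ∧ ∀ A B : ℝ, 1 ≤ A → 1 ≤ B → (PJ S a i A B).Finite ∧
      ((PJ S a i A B).ncard : ℝ) ≤ D * (A * B ^ 2) ^ ε * (A * B) := by
  obtain ⟨D, hD, h⟩ := three_upperK K S hS q hq a ha0 ha ε hε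
  refine ⟨D, hD, fun A B hA hB => fin_of_bound fun G hG => ?_⟩
  have hA0 : 0 < A := by linarith
  have hB0 : 0 < B := by linarith
  obtain ⟨b, c, hib, hbc, hic⟩ : ∃ b c : Fin q, i ≠ b ∧ b ≠ c ∧ i ≠ c := by
    have h0 : (0 : ℕ) < q := by omega
    have h1 : (1 : ℕ) < q := by omega
    have h2 : (2 : ℕ) < q := by omega
    by_cases e0 : i = ⟨0, h0⟩
    · refine ⟨⟨1, h1⟩, ⟨2, h2⟩, ?_, ?_, ?_⟩
      · rw [e0]; intro h; have := congrArg Fin.val h; simp at this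
      · intro h; have := congrArg Fin.val h; simp at this
      · rw [e0]; intro h; have := congrArg Fin.val h; simp at this
    · by_cases e1 : i = ⟨1, h1⟩
      · refine ⟨⟨0, h0⟩, ⟨2, h2⟩, e0, ?_, ?_⟩
        · intro h; have := congrArg Fin.val h; simp at this
        · rw [e1]; intro h; have := congrArg Fin.val h; simp at this
      · refine ⟨⟨0, h0⟩, ⟨1, h1⟩, e0, ?_, e1⟩
        intro h; have := congrArg Fin.val h; simp at this
  have h1 := h (A * B ^ 2) A (one_le_mul_of_one_le_of_one_le hA (one_le_pow₀ hB)) hA G (by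
    intro P hP
    obtain ⟨x, hx0, e, hx, c1, c2⟩ := hG hP
    refine ⟨x, hx0, e, hx, i, b, c, hib, hbc, hic, ?_, c1⟩
    rw [Real.log_mul hA0.ne' (by positivity), Real.log_pow]
    push_cast
    linarith [c2 b hib.symm, c2 c hic.symm])
  refine h1.trans (le_of_eq ?_)
  congr 1
  have e : A * (A * B ^ 2) = (A * B) ^ 2 := by ring
  rw [e, ← Real.rpow_natCast, ← Real.rpow_mul (by positivity)]
  norm_num

theorem PT_upper (K : Type) [Field K] [NumberField K] (S : Set (Pr K)) (hS : S.Finite)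
    (q : ℕ) (hq : 3 ≤ q) (a : Fin q → Fin 2 → K) (ha0 : ∀ i, a i ≠ 0)
    (ha : ∀ i j, i ≠ j → form (a i) (a j) ≠ 0) (i : Fin q) (ε : ℝ) (hε : 0 < ε) :
    ∃ D : ℝ, 0 < D ∧ ∀ X A : ℝ, 1 ≤ X → 1 ≤ A → (PT S a i X A).Finite ∧
      ((PT S a i X A).ncard : ℝ) ≤
        D * X ^ ε * (X * A ^ ((q : ℝ) - 2)) ^ (1 / ((q : ℝ) - 1)) := by
  obtain ⟨m, rfl⟩ : ∃ m, q = m + 3 := ⟨q - 3, by omega⟩
  obtain ⟨D, hD, h⟩ := line_upperK K S hS m a ha0 ha ε hε
  refine ⟨D, hD, fun X A hX hA => fin_of_bound fun G hG => ?_⟩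
  have h1 := h X A hX hA G (by
    intro P hP
    obtain ⟨x, hx0, e, hx, c1, c2⟩ := hG hP
    exact ⟨x, hx0, e, hx, c1, i, c2⟩)
  refine h1.trans (le_of_eq ?_)
  push_cast
  have e1 : (m : ℝ) + 3 - 2 = m + 1 := by ring
  have e2 : (m : ℝ) + 3 - 1 = m + 2 := by ring
  rw [e1, e2]

/-- many points, including the integral ones -/
theorem PJ_lower (K : Type) [Field K] [NumberField K] (S : Set (Pr K)) (hS : S.Finite) (q : ℕ)
    (hq : 3 ≤ q) (a : Fin q → Fin 2 → K) (ha0 : ∀ i, a i ≠ 0)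
    (ha : ∀ i j, i ≠ j → form (a i) (a j) ≠ 0) (i : Fin q) (δ : ℝ) (hδ : 0 < δ) (hδ1 : δ ≤ 1) :
    ∃ B₀ : ℝ, 1 ≤ B₀ ∧ ∀ A B : ℝ, 1 ≤ A → A ≤ B → B₀ ≤ B →
      B ^ (-δ) * (A * B) ≤ ((PJ S a i A B).ncard : ℝ) := by
  obtain ⟨c₀, hc₀, hJ⟩ := lowerJ K S q a ha0 ha i
  obtain ⟨B₁, hB₁, hJ⟩ := hJ δ hδ hδ1
  obtain ⟨C₁, hC₁, hI⟩ := lowerI K S q a ha0 ha i
  obtain ⟨D, hD, hU⟩ := PJ_upper K S hS q hq a ha0 ha i 1 one_pos
  have hq0 : (0 : ℝ) ≤ q := Nat.cast_nonneg q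
  have hcq : 0 < C₁ * (c₀ + q) := by positivity
  refine ⟨max (max B₁ C₁) (max 1 ((C₁ * (c₀ + q)) ^ (1 / δ))),
    hB₁.trans ((le_max_left _ _).trans (le_max_left _ _)), fun A B hA hAB hB => ?_⟩
  have hB1 : B₁ ≤ B := ((le_max_left _ _).trans (le_max_left _ _)).trans hB
  have hB2 : C₁ ≤ B := ((le_max_right _ _).trans (le_max_left _ _)).trans hB
  have hB3 : (C₁ * (c₀ + q)) ^ (1 / δ) ≤ B := ((le_max_right _ _).trans (le_max_right _ _)).trans hB
  have hB1' : 1 ≤ B := hA.trans hAB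
  have hBp : 0 < B := by linarith
  have hAp : 0 < A := by linarith
  have hfin := (hU A B hA hB1').1
  rcases le_total c₀ A with hcA | hcA
  · obtain ⟨G, hG, hGc⟩ := hJ A B hcA hAB hB1
    refine hGc.trans ?_
    have hsub : (G : Set _) ⊆ PJ S a i A B := by
      intro P hP
      obtain ⟨x, hx0, e, hx, c1, c2⟩ := hG P hP
      exact ⟨x, hx0, e, hx, c1, fun l _ => c2 l⟩
    have := Set.ncard_le_ncard hsub hfin
    rw [Set.ncard_coe_finset] at this
    exact_mod_cast this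
  · obtain ⟨G, hG, hGc⟩ := hI B hB2
    have hsub : (G : Set _) ⊆ PJ S a i A B := by
      intro P hP
      obtain ⟨x, hx0, e, hx, c1, c2⟩ := hG P hP
      exact ⟨x, hx0, e, hx, c1.trans (Real.log_nonneg hA), fun l _ => c2 l⟩
    have h1 := Set.ncard_le_ncard hsub hfin
    rw [Set.ncard_coe_finset] at h1
    have h2 : (G.card : ℝ) ≤ ((PJ S a i A B).ncard : ℝ) := by exact_mod_cast h1
    refine le_trans ?_ h2
    have h3 : C₁ * (c₀ + q) ≤ B ^ δ := by
      have h6 := Real.rpow_le_rpow (by positivity) hB3 hδ.le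
      rw [← Real.rpow_mul hcq.le, one_div_mul_cancel hδ.ne', Real.rpow_one] at h6
      exact h6
    have h4 : B ^ (-δ) * B ^ δ = 1 := by
      rw [← Real.rpow_add hBp, neg_add_cancel, Real.rpow_zero]
    have h5 : 1 ≤ B ^ (-δ) * B := by
      have e : B ^ (-δ) * B = B ^ (-δ + 1) := by
        rw [Real.rpow_add hBp, Real.rpow_one]
      rw [e]
      exact Real.one_le_rpow hB1' (by linarith)
    have h6 : B ^ (-δ) * (C₁ * (c₀ + q)) ≤ 1 := by
      rw [← h4]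
      exact mul_le_mul_of_nonneg_left h3 (by positivity)
    have hC0 : 0 < C₁ := by linarith
    have h7 : B ^ (-δ) * B * (c₀ + q) ≤ B / C₁ := by
      rw [le_div_iff₀ hC0]
      calc B ^ (-δ) * B * (c₀ + q) * C₁ = (B ^ (-δ) * (C₁ * (c₀ + q))) * B := by ring
        _ ≤ 1 * B := mul_le_mul_of_nonneg_right h6 hBp.le
        _ = B := one_mul B
    have h8 : (q : ℝ) ≤ B ^ (-δ) * B * q := le_mul_of_one_le_left hq0 h5
    have h9 : B ^ (-δ) * (A * B) ≤ B ^ (-δ) * B * c₀ := by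
      calc B ^ (-δ) * (A * B) = B ^ (-δ) * B * A := by ring
        _ ≤ _ := mul_le_mul_of_nonneg_left hcA (by positivity)
    have h10 : B ^ (-δ) * B * (c₀ + q) = B ^ (-δ) * B * c₀ + B ^ (-δ) * B * q := by ring
    linarith

theorem PT_lower (K : Type) [Field K] [NumberField K] (S : Set (Pr K)) (hS : S.Finite) (q : ℕ)
    (hq : 3 ≤ q) (a : Fin q → Fin 2 → K) (ha0 : ∀ i, a i ≠ 0)
    (ha : ∀ i j, i ≠ j → form (a i) (a j) ≠ 0) (i : Fin q) (δ : ℝ) (hδ : 0 < δ) (hδ1 : δ ≤ 1) :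
    ∃ X₀ : ℝ, 1 ≤ X₀ ∧ ∀ X A : ℝ, X₀ ≤ X → 1 ≤ A → A ^ q ≤ X →
      X ^ (-δ) * (X * A ^ ((q : ℝ) - 2)) ^ (1 / ((q : ℝ) - 1)) ≤ ((PT S a i X A).ncard : ℝ) := by
  obtain ⟨B₀, hB₀, h⟩ := PJ_lower K S hS q hq a ha0 ha i δ hδ hδ1
  obtain ⟨D, hD, hU⟩ := PT_upper K S hS q hq a ha0 ha i 1 one_pos
  refine ⟨B₀ ^ q, one_le_pow₀ hB₀, fun X A hX hA hAX => ?_⟩
  have hq3 : (3 : ℝ) ≤ q := by exact_mod_cast hq
  have hq1 : (0 : ℝ) < (q : ℝ) - 1 := by linarith
  have hq0 : (0 : ℝ) < q := by linarith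
  have hX1 : 1 ≤ X := (one_le_pow₀ hB₀).trans hX
  have hX0 : 0 < X := by linarith
  have hAp : 0 < A := by linarith
  have hXA0 : 0 < X / A := by positivity
  obtain ⟨B, hB⟩ : ∃ B : ℝ, B = (X / A) ^ (1 / ((q : ℝ) - 1)) := ⟨_, rfl⟩
  have hBp : 0 < B := by rw [hB]; positivity
  have hXA : A ^ ((q : ℝ) - 1) ≤ X / A := by
    rw [le_div_iff₀ hAp]
    calc A ^ ((q : ℝ) - 1) * A = A ^ ((q : ℝ) - 1) * A ^ (1 : ℝ) := by rw [Real.rpow_one]
      _ = A ^ (q : ℝ) := by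
          rw [← Real.rpow_add hAp]
          congr 1
          ring
      _ = A ^ q := Real.rpow_natCast _ _
      _ ≤ X := hAX
  have hAB : A ≤ B := by
    rw [hB]
    calc A = (A ^ ((q : ℝ) - 1)) ^ (1 / ((q : ℝ) - 1)) := by
          rw [← Real.rpow_mul hAp.le, mul_one_div_cancel hq1.ne', Real.rpow_one]
      _ ≤ _ := Real.rpow_le_rpow (by positivity) hXA (by positivity)
  have hlogB : ((q : ℝ) - 1) * Real.log B = Real.log X - Real.log A := by
    rw [hB, Real.log_rpow hXA0, Real.log_div hX0.ne' hAp.ne']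
    field_simp
  have hBB₀ : B₀ ≤ B := by
    rw [← Real.log_le_log_iff (by linarith) hBp]
    have h1 := Real.log_le_log (by positivity) hX
    have h2 := Real.log_le_log (by positivity) hAX
    rw [Real.log_pow] at h1 h2
    have h3 : (q : ℝ) * (((q : ℝ) - 1) * Real.log B₀) ≤ (q : ℝ) * (((q : ℝ) - 1) * Real.log B) := by
      rw [hlogB]
      have h4 : ((q : ℝ) - 1) * (q * Real.log B₀) ≤ ((q : ℝ) - 1) * Real.log X :=
        mul_le_mul_of_nonneg_left h1 hq1.le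
      nlinarith
    have h5 : (0 : ℝ) < q * ((q : ℝ) - 1) := by positivity
    nlinarith
  have h1 := h A B hA hAB hBB₀
  have hB1 : 1 ≤ B := hA.trans hAB
  have hBX : B ≤ X := by
    rw [← Real.log_le_log_iff hBp hX0]
    have h2 : 0 ≤ Real.log B := Real.log_nonneg hB1
    have h3 : 0 ≤ Real.log A := Real.log_nonneg hA
    nlinarith
  have hAB' : A * B = (X * A ^ ((q : ℝ) - 2)) ^ (1 / ((q : ℝ) - 1)) := by
    have e3 : X * A ^ ((q : ℝ) - 2) = A ^ ((q : ℝ) - 1) * (X / A) := by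
      have e4 : A ^ ((q : ℝ) - 1) = A ^ ((q : ℝ) - 2) * A := by
        calc A ^ ((q : ℝ) - 1) = A ^ ((q : ℝ) - 2 + 1) := by congr 1; ring
          _ = A ^ ((q : ℝ) - 2) * A ^ (1 : ℝ) := Real.rpow_add hAp _ _
          _ = _ := by rw [Real.rpow_one]
      rw [e4]
      field_simp
    rw [e3, Real.mul_rpow (by positivity) hXA0.le, ← Real.rpow_mul hAp.le,
      mul_one_div_cancel hq1.ne', Real.rpow_one, ← hB]
  have hsub : PJ S a i A B ⊆ PT S a i X A := by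
    rintro P ⟨x, hx0, e, hx, c1, c2⟩
    refine ⟨x, hx0, e, hx, ?_, c1⟩
    rw [← Finset.add_sum_erase _ _ (Finset.mem_univ i)]
    have h1 : ∑ l ∈ Finset.univ.erase i, cnt1 S (a l) x ≤
        ∑ _l ∈ (Finset.univ : Finset (Fin q)).erase i, Real.log B :=
      Finset.sum_le_sum fun l hl => c2 l (Finset.mem_erase.1 hl).1
    rw [Finset.sum_const, Finset.card_erase_of_mem (Finset.mem_univ _), Finset.card_univ,
      Fintype.card_fin, nsmul_eq_mul, Nat.cast_sub (by omega), Nat.cast_one, hlogB] at h1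
    linarith
  have h2 := Set.ncard_le_ncard hsub (hU X A hX1 hA).1
  have h3 : ((PJ S a i A B).ncard : ℝ) ≤ ((PT S a i X A).ncard : ℝ) := by exact_mod_cast h2
  refine le_trans ?_ (h1.trans h3)
  rw [← hAB']
  refine mul_le_mul_of_nonneg_right ?_ (by positivity)
  rw [Real.rpow_neg hX0.le, Real.rpow_neg hBp.le]
  exact inv_anti₀ (by positivity) (Real.rpow_le_rpow hBp.le hBX hδ.le)

end Pool.Agent.H59.QI
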